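import Pool.Agent.P.MP_d7de43_lc.Main

/-!
Reading one bit from approximate fractional parts.
-/

namespace Pool.Agent.P.MP_d7de43_lc.Bit

/-- the sign of a tiny number from approximate residues of its multiples -/
theorem sign_correct {q : ℚ} (hq : 8 ≤ q) {y : ℚ} {v : ℕ → ℚ} {W : ℕ}
    (hv0 : ∀ s, 0 ≤ v s ∧ v s < q) (hv : ∀ s < W, ∃ c : ℤ, |v s - c * q - 2 ^ s * y| ≤ 1 / 16)
    (hg : ∀ s < W, ∀ c : ℤ, |c * q - 2 ^ s * y| ≤ 3 → c = 0) (hy : |y| ≤ 1)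
    (hW : 1 < |2 ^ W * y|) {s : ℕ} (h1 : s < W) (h2 : s = 0 ∨ (v s ≤ 2 ∨ q - v s ≤ 2))
    (h3 : s + 1 = W ∨ ¬ (v (s + 1) ≤ 2 ∨ q - v (s + 1) ≤ 2)) :
    (1 / 4 ≤ v s ∧ 2 * v s < q) ↔ 0 < y := by
  obtain ⟨c, hc⟩ := hv s h1
  obtain ⟨h0, h0'⟩ := hv0 s
  have h4 : |2 ^ s * y| ≤ 3 := by
    rcases h2 with rfl | h | h
    · rw [pow_zero, one_mul]; linarith
    · rw [abs_le] at hc
      have h5 : |((-c : ℤ) : ℚ) * q - 2 ^ s * y| ≤ 3 := by
        push_cast; rw [abs_le]; constructor <;> linarith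
      have h6 := hg s h1 _ h5
      rw [h6] at h5
      simpa using h5
    · rw [abs_le] at hc
      have h5 : |((1 - c : ℤ) : ℚ) * q - 2 ^ s * y| ≤ 3 := by
        push_cast; rw [abs_le]; constructor <;> linarith
      have h6 := hg s h1 _ h5
      rw [h6] at h5
      simpa using h5
  have h6 : 1 < |2 ^ (s + 1) * y| := by
    by_cases hs : s + 1 = W
    · rw [hs]; exact hW
    · by_contra hle
      push Not at hle
      refine (h3.resolve_left hs) ?_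
      obtain ⟨c', hc'⟩ := hv (s + 1) (by omega)
      obtain ⟨g0, g1⟩ := hv0 (s + 1)
      have h7 := coeff_cases hq g0 g1 hc' (by linarith)
      rw [abs_le] at hc' hle
      rcases h7 with rfl | rfl
      · left; push_cast at hc'; linarith
      · right; push_cast at hc'; linarith
  have h5 : 1 / 2 < |2 ^ s * y| := by
    rw [show 2 ^ (s + 1) * y = 2 * (2 ^ s * y) by ring, abs_mul, abs_two] at h6
    linarith
  have h7 := coeff_cases hq h0 h0' hc h4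
  rw [← mul_pos_iff_of_pos_left (show (0 : ℚ) < 2 ^ s by positivity)]
  rw [abs_le] at hc h4
  rw [lt_abs] at h5
  rcases h7 with rfl | rfl <;> push_cast at hc <;> rcases h5 with h5 | h5 <;>
    constructor <;> intro h8 <;> first | linarith | (constructor <;> linarith)

/-- the scaled odd number -/
def xx (M : ℤ) (i : ℕ) : ℚ := (2 * M + 1) / 2 ^ (i + 1)

/-- its distance from the nearest integer, with sign -/
def yy (M : ℤ) (i : ℕ) : ℚ := xx M i - _root_.round (xx M i)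

theorem floor_xx (M : ℤ) (i : ℕ) : ⌊xx M i⌋ = M / 2 ^ i := by
  have h0 : (0 : ℤ) < 2 ^ i := by positivity
  have h1 := Int.emod_add_mul_ediv M (2 ^ i)
  have h2 := Int.emod_nonneg M h0.ne'
  have h3 := Int.emod_lt_of_pos M h0
  have h4 : ((M % 2 ^ i : ℤ) : ℚ) + 2 ^ i * ((M / 2 ^ i : ℤ) : ℚ) = M := by exact_mod_cast h1
  have h5 : (0 : ℚ) ≤ ((M % 2 ^ i : ℤ) : ℚ) := by exact_mod_cast h2
  have h6 : ((M % 2 ^ i : ℤ) : ℚ) + 1 ≤ 2 ^ i := by exact_mod_cast h3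
  have h7 : (0 : ℚ) < 2 ^ (i + 1) := by positivity
  rw [Int.floor_eq_iff, xx, le_div_iff₀ h7, div_lt_iff₀ h7, pow_succ]
  constructor <;> nlinarith

theorem yy_low (M : ℤ) (i : ℕ) : 1 ≤ |2 ^ (i + 1) * yy M i| := by
  have e : 2 ^ (i + 1) * yy M i = ((2 * (M - 2 ^ i * _root_.round (xx M i)) + 1 : ℤ) : ℚ) := by
    rw [yy]
    nth_rewrite 1 [xx]
    push_cast
    field_simp
    ring
  rw [e]
  exact_mod_cast Int.one_le_abs (by omega)

theorem yy_abs (M : ℤ) (i : ℕ) : |yy M i| ≤ 1 / 2 := abs_sub_round _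

theorem near_case {M u : ℤ} {i b W q : ℕ} (hq : 8 ≤ q) (hqb : q ≤ 2 ^ b) (hW : i + 2 ≤ W)
    {φ : ℕ → ℚ} (hφ0 : ∀ s, 0 ≤ φ s ∧ φ s < 1)
    (hφ : ∀ s < W, ∃ c : ℤ, |φ s - c - ((2 ^ s / q : ℕ) : ℚ) * xx M i| ≤ 1 / 2 ^ (b + 10))
    (hg : ∀ s < W, ∀ z : ℤ, |z - 2 ^ s * yy M i| ≤ 3 → (q : ℤ) ∣ z → z = 0)
    (hu : |xx M i - u| ≤ 1 / 2 ^ (b + 5)) {s : ℕ} (h1 : s < W)
    (h2 : s = 0 ∨ (q * φ s ≤ 2 ∨ q - q * φ s ≤ 2))
    (h3 : s + 1 = W ∨ ¬ (q * φ (s + 1) ≤ 2 ∨ q - q * φ (s + 1) ≤ 2)) :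
    M / 2 ^ i = if 1 / 4 ≤ q * φ s ∧ 2 * (q * φ s) < q then u else u - 1 := by
  have hq' : (8 : ℚ) ≤ q := by exact_mod_cast hq
  have hqb' : (q : ℚ) ≤ 2 ^ b := by exact_mod_cast hqb
  have hb : (1 : ℚ) ≤ 2 ^ b := one_le_pow₀ (by norm_num)
  have hsm : (1 : ℚ) / 2 ^ (b + 5) ≤ 1 / 32 := by
    rw [pow_add]; exact one_div_le_one_div_of_le (by norm_num) (by norm_num; linarith)
  have hr : _root_.round (xx M i) = u := by
    have h4 := yy_abs M i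
    rw [yy, abs_le] at h4
    rw [abs_le] at hu
    have h5 : ((_root_.round (xx M i) : ℤ) : ℚ) - u < 1 := by linarith
    have h6 : (-1 : ℚ) < ((_root_.round (xx M i) : ℤ) : ℚ) - u := by linarith
    have h7 : _root_.round (xx M i) - u < 1 := by exact_mod_cast h5
    have h8 : -1 < _root_.round (xx M i) - u := by exact_mod_cast h6
    omega
  have hy : yy M i = xx M i - u := by rw [yy, hr]
  rw [← hy] at hu
  have key := sign_correct hq' (y := yy M i) (v := fun s => q * φ s) (W := W)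
    (fun s => ⟨mul_nonneg (by linarith) (hφ0 s).1, by nlinarith [(hφ0 s).2]⟩)
    (fun s hs => by
      obtain ⟨c, hc⟩ := hφ s hs
      refine ⟨c + (2 ^ s / q : ℕ) * u, ?_⟩
      have h5 : (q : ℚ) * ((2 ^ s / q : ℕ) : ℚ) + ((2 ^ s % q : ℕ) : ℚ) = 2 ^ s := by
        exact_mod_cast Nat.div_add_mod (2 ^ s) q
      have h6 : ((2 ^ s % q : ℕ) : ℚ) ≤ 2 ^ b := by
        refine le_trans ?_ hqb'
        exact_mod_cast (Nat.mod_lt _ (by omega)).le
      have e : (q : ℚ) * φ s - ((c + (2 ^ s / q : ℕ) * u : ℤ) : ℚ) * q - 2 ^ s * yy M i =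
          q * (φ s - c - ((2 ^ s / q : ℕ) : ℚ) * xx M i) - ((2 ^ s % q : ℕ) : ℚ) * yy M i := by
        rw [← h5, hy, Int.cast_add, Int.cast_mul, Int.cast_natCast]; ring
      rw [e]
      refine (abs_sub _ _).trans ?_
      rw [abs_mul, abs_mul, Nat.abs_cast, Nat.abs_cast]
      have h7 : (q : ℚ) * |φ s - c - ((2 ^ s / q : ℕ) : ℚ) * xx M i| ≤
          2 ^ b * (1 / 2 ^ (b + 10)) := by gcongr
      have h8 : ((2 ^ s % q : ℕ) : ℚ) * |yy M i| ≤ 2 ^ b * (1 / 2 ^ (b + 5)) := by gcongr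
      have h9 : (2 : ℚ) ^ b * (1 / 2 ^ (b + 10)) = 1 / 1024 := by rw [pow_add]; field_simp; norm_num
      have h10 : (2 : ℚ) ^ b * (1 / 2 ^ (b + 5)) = 1 / 32 := by rw [pow_add]; field_simp; norm_num
      linarith)
    (fun s hs c hc => by
      have h5 := hg s hs (c * q) (by exact_mod_cast hc) (Dvd.intro_left _ rfl)
      rcases mul_eq_zero.1 h5 with h | h
      · exact h
      · omega)
    (by linarith) (by
      have h5 := yy_low M i
      obtain ⟨d, rfl⟩ : ∃ d, W = d + 1 + (i + 1) := ⟨W - (i + 2), by omega⟩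
      have h6 : (1 : ℚ) ≤ 2 ^ d := one_le_pow₀ (by norm_num)
      rw [pow_add, mul_assoc, abs_mul, abs_of_pos (by positivity), pow_succ]
      nlinarith) h1 h2 h3
  have h5 := yy_low M i
  rw [← floor_xx, abs_le] at *
  split_ifs with h
  · have h6 := key.1 h
    rw [Int.floor_eq_iff]
    constructor <;> linarith
  · have h6 : yy M i ≤ 0 := not_lt.1 fun h' => h (key.2 h')
    have h7 : yy M i ≠ 0 := fun h0 => by rw [h0] at h5; norm_num at h5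
    have h8 := lt_of_le_of_ne h6 h7
    rw [Int.floor_eq_iff]
    push_cast
    constructor <;> linarith

theorem bit_correct {M : ℤ} {i b W q : ℕ} (hq : 8 ≤ q) (hqb : q ≤ 2 ^ b) (hW : i + 2 ≤ W)
    {φ : ℕ → ℚ} (hφ0 : ∀ s, 0 ≤ φ s ∧ φ s < 1)
    (hφ : ∀ s < W, ∃ c : ℤ, |φ s - c - ((2 ^ s / q : ℕ) : ℚ) * xx M i| ≤ 1 / 2 ^ (b + 10))
    (hg : ∀ s < W, ∀ z : ℤ, |z - 2 ^ s * yy M i| ≤ 3 → (q : ℤ) ∣ z → z = 0)
    {θ : ℚ} (hθ : ∃ c : ℤ, |θ - c - xx M i / 2| ≤ 1 / 2 ^ (b + 10))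
    (hθ0 : 0 ≤ θ ∧ θ < 1) {s : ℕ} (h1 : s < W)
    (h2 : s = 0 ∨ (q * φ s ≤ 2 ∨ q - q * φ s ≤ 2))
    (h3 : s + 1 = W ∨ ¬ (q * φ (s + 1) ≤ 2 ∨ q - q * φ (s + 1) ≤ 2)) :
    (if θ ≤ 1 / 2 ^ (b + 7) ∨ 1 - θ ≤ 1 / 2 ^ (b + 7) then
        ¬ (1 / 4 ≤ q * φ s ∧ 2 * (q * φ s) < q)
      else if θ - 1 / 2 ≤ 1 / 2 ^ (b + 7) ∧ 1 / 2 - θ ≤ 1 / 2 ^ (b + 7) then
        (1 / 4 ≤ q * φ s ∧ 2 * (q * φ s) < q) else 1 < 2 * θ) ↔ M / 2 ^ i % 2 = 1 := by
  obtain ⟨c, hc⟩ := hθ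
  obtain ⟨t0, t1⟩ := hθ0
  have hb : (0 : ℚ) < 1 / 2 ^ (b + 10) := by positivity
  have e7 : (1 : ℚ) / 2 ^ (b + 7) = 8 * (1 / 2 ^ (b + 10)) := by
    rw [show b + 10 = b + 7 + 3 by ring, pow_add _ (b + 7)]; field_simp; norm_num
  have e5 : (1 : ℚ) / 2 ^ (b + 5) = 32 * (1 / 2 ^ (b + 10)) := by
    rw [show b + 10 = b + 5 + 5 by ring, pow_add _ (b + 5)]; field_simp; norm_num
  have near := fun (u : ℤ) (hu : |xx M i - u| ≤ 1 / 2 ^ (b + 5)) =>
    near_case hq hqb hW hφ0 hφ hg hu h1 h2 h3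
  rw [e5] at near
  rw [e7]
  generalize (1 : ℚ) / 2 ^ (b + 10) = ε at *
  rw [abs_le] at hc
  split_ifs with g1 g2
  · obtain ⟨u, hu⟩ : ∃ u : ℤ, |xx M i - ((2 * u : ℤ) : ℚ)| ≤ 32 * ε := by
      rcases g1 with g | g
      · exact ⟨-c, by push_cast; rw [abs_le]; constructor <;> linarith⟩
      · exact ⟨1 - c, by push_cast; rw [abs_le]; constructor <;> linarith⟩
    rw [near _ hu]
    split_ifs with g
    · simp only [g, and_self, not_true, false_iff]; omega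
    · simp only [g, not_false_eq_true, true_iff]; omega
  · rw [near (2 * (-c) + 1) (by push_cast; rw [abs_le]; constructor <;> linarith)]
    split_ifs with g
    · simp only [g, and_self, true_iff]; omega
    · simp only [g, false_iff]; omega
  · push Not at g1 g2
    rw [← floor_xx]
    by_cases g : 1 < 2 * θ
    · have h4 : ⌊xx M i⌋ = 2 * (-c) + 1 := by
        have h5 : ¬ θ - 1 / 2 ≤ 8 * ε := fun h => by have := g2 h; linarith
        rw [Int.floor_eq_iff]; push_cast; constructor <;> linarith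
      simp only [g, true_iff, h4]; omega
    · have h4 : ⌊xx M i⌋ = 2 * (-c) := by
        have h5 := g2 (by linarith)
        rw [Int.floor_eq_iff]; push_cast; constructor <;> linarith
      simp only [g, false_iff, h4]; omega

end Pool.Agent.P.MP_d7de43_lc.Bit
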