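import Pool.Agent.P.MP_d7de43_lc.Bit.Phi
import Pool.Agent.P.MP_d7de43_lc.Bit.Dec

/-!
The oracle algorithm that reads one bit.
-/

namespace Pool.Agent.P.MP_d7de43_lc.Bit

open Pool.Agent.Lib.Helper47 Finset

set_option maxHeartbeats 400000

attribute [local irreducible] tt LL WW ww HH mm RR bb qq dg NZ zres cc rr G H ub Kb MZ beta okp Phi

/-- a query -/
def qz (x : List Bool) (r σ I s q : ℕ) : List Bool := pair x (encLines [[r, σ, I, s, q]])

/-- the parameters of a query -/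
def par (z : List Bool) (k : ℕ) : ℕ := ((parseLines (sndP z)).headD []).getD k 0

/-- the exponential sum attached to a query -/
def PhiZ (z : List Bool) : ℚ := Phi (fstP z) (par z 0) (par z 1) (par z 2) (par z 3) (par z 4)

theorem sq_PhiZ : SQ PhiZ := by
  unfold PhiZ par
  exact sq_Phi (by fun_prop) (by fun_prop) (by fun_prop) (by fun_prop) (by fun_prop) (by fun_prop)

theorem PhiZ_qz (x : List Bool) (r σ I s q : ℕ) : PhiZ (qz x r σ I s q) = Phi x r σ I s q := by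
  simp [PhiZ, par, qz, parseLines_encLines]

/-- the approximate residue is close to zero -/
def smallB (q c E : ℕ) : Bool := Nat.ble (q * c) (2 * E) || Nat.ble (q * (E - c)) (2 * E)

/-- the approximate residue is positive -/
def posB (q c E : ℕ) : Bool := Nat.ble E (4 * q * c) && Nat.blt (2 * c) E

/-- the final answer -/
def finB (T c E : ℕ) (b : Bool) : Bool :=
  bif Nat.ble (2 * T * c) E || Nat.ble (2 * T * (E - c)) E then !b else
    bif Nat.ble (T * (2 * c - E)) E && Nat.ble (T * (E - 2 * c)) E then b else Nat.blt E (2 * c)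

/-- the query of the next round -/
def qry (x : List Bool) (r σ i : ℕ) (l : List Bool) : List Bool :=
  bif Nat.blt l.length (ub x) then qz x r σ (i + 1) (cand (ub x) l) (qq x r) else
    bif l.length == ub x then qz x r σ (i + 1) (msb l 0) (qq x r) else qz x r σ (i + 2) 0 1

/-- the result of a round -/
def out (x : List Bool) (r : ℕ) (l : List Bool) (c E : ℕ) : Bool :=
  bif Nat.blt l.length (ub x) then smallB (qq x r) (c % E) E else
    bif l.length == ub x then posB (qq x r) (c % E) E else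
      finB (2 ^ (bb x + 6)) (c % E) E (l.getD (ub x) false)

/-- one round -/
def rnd (C E : List Bool → ℕ) (x : List Bool) (r σ i : ℕ) (l : List Bool) : Bool :=
  out x r l (C (qry x r σ i l)) (E (qry x r σ i l))

/-- reading one bit -/
def call (C E : List Bool → ℕ) (x : List Bool) (r σ i : ℕ) : Bool :=
  (loop (rnd C E x r σ i) (ub x + 2)).getD (ub x + 1) false

theorem opt_call {A : List Bool → Bool} {C E : List Bool → ℕ} (hC : OPT A C) (hE : PT E) :
    OPT A fun a : List Bool × ℕ × ℕ × ℕ => call C E a.1 a.2.1 a.2.2.1 a.2.2.2 := by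
  have hq : PT fun a : (List Bool × ℕ × ℕ × ℕ) × List Bool =>
      qry a.1.1 a.1.2.1 a.1.2.2.1 a.1.2.2.2 a.2 := by
    have h : PT fun a : (List Bool × ℕ × ℕ × ℕ) × List Bool => cand (ub a.1.1) a.2 :=
      pt_cand (by fun_prop) (ps_ub (by fun_prop)) (by fun_prop)
    unfold qry qz; fun_prop
  have ho : PT fun b : ((List Bool × ℕ × ℕ × ℕ) × List Bool) × ℕ =>
      out b.1.1.1 b.1.1.2.1 b.1.2 b.2
        (E (qry b.1.1.1 b.1.1.2.1 b.1.1.2.2.1 b.1.1.2.2.2 b.1.2)) := by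
    have h1 : PT fun b : (List Bool × ℕ × List Bool) × ℕ × ℕ => 2 ^ (bb b.1.1 + 6) :=
      PT.pow (PT.const 2) (by fun_prop) ((ps_bb (by fun_prop)).add (PB.const 6))
    have h2 : PT fun b : (List Bool × ℕ × List Bool) × ℕ × ℕ =>
        out b.1.1 b.1.2.1 b.1.2.2 b.2.1 b.2.2 := by
      unfold out smallB posB finB; fun_prop
    have h3 := (hE.comp hq).comp
      (PT.fst (PT.id (α := ((List Bool × ℕ × ℕ × ℕ) × List Bool) × ℕ)))
    exact h2.comp (g := fun b : ((List Bool × ℕ × ℕ × ℕ) × List Bool) × ℕ =>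
      ((b.1.1.1, b.1.1.2.1, b.1.2), b.2,
        E (qry b.1.1.1 b.1.1.2.1 b.1.1.2.2.1 b.1.1.2.2.2 b.1.2)))
      (PT.prodMk (by fun_prop) (PT.prodMk (by fun_prop) h3))
  have h1 : OPT A fun a : (List Bool × ℕ × ℕ × ℕ) × List Bool =>
      rnd C E a.1.1 a.1.2.1 a.1.2.2.1 a.1.2.2.2 a.2 := (hC.pre hq).post ho
  have h2 := h1.loop (M := fun a => ub a.1 + 2) (by fun_prop)
    ((ps_ub (x := fun a : List Bool × ℕ × ℕ × ℕ => a.1) (by fun_prop)).add (PB.const 2))
  exact h2.post (g := fun b => b.2.getD (ub b.1.1 + 1) false) (by fun_prop)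

theorem smallB_iff {q c E : ℕ} (hE : 0 < E) (h : c ≤ E) :
    smallB q c E = true ↔ (q : ℚ) * ((c : ℚ) / E) ≤ 2 ∨ q - (q : ℚ) * ((c : ℚ) / E) ≤ 2 := by
  have hE' : (0 : ℚ) < E := by exact_mod_cast hE
  have e : (q : ℚ) - (q : ℚ) * ((c : ℚ) / E) = ((q * (E - c) : ℕ) : ℚ) / E := by
    rw [Nat.cast_mul, Nat.cast_sub h]; field_simp
  rw [e, ← mul_div_assoc, div_le_iff₀ hE', div_le_iff₀ hE']
  simp only [smallB, Bool.or_eq_true, Nat.ble_eq]
  refine or_congr ?_ ?_ <;> norm_cast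

theorem posB_iff {q c E : ℕ} (hq : 0 < q) (hE : 0 < E) : posB q c E = true ↔
    1 / 4 ≤ (q : ℚ) * ((c : ℚ) / E) ∧ 2 * ((q : ℚ) * ((c : ℚ) / E)) < q := by
  have hE' : (0 : ℚ) < E := by exact_mod_cast hE
  have hq' : (0 : ℚ) < q := by exact_mod_cast hq
  simp only [posB, Bool.and_eq_true, Nat.ble_eq, Nat.blt_eq]
  refine and_congr ?_ ?_
  · rw [← mul_div_assoc, div_le_div_iff₀ (by norm_num) hE', one_mul, mul_comm _ (4 : ℚ),
      ← mul_assoc]
    norm_cast
  · rw [mul_left_comm, mul_lt_iff_lt_one_right hq', ← mul_div_assoc, div_lt_one hE']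
    norm_cast

theorem sub_le_iff (T a b E : ℕ) : T * (a - b) ≤ E ↔ (T : ℚ) * (a - b) ≤ E := by
  rcases le_total b a with h | h
  · rw [← Nat.cast_sub h]; norm_cast
  · have h1 : (a : ℚ) ≤ b := by exact_mod_cast h
    have h2 : (T : ℚ) * (a - b) ≤ 0 := mul_nonpos_of_nonneg_of_nonpos (by positivity) (by linarith)
    have h3 : (0 : ℚ) ≤ E := by positivity
    rw [Nat.sub_eq_zero_of_le h]
    exact ⟨fun _ => by linarith, fun _ => by simp⟩

theorem finB_iff {b c E : ℕ} (hE : 0 < E) {v : Bool} {P : Prop} (hv : v = true ↔ P) :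
    finB (2 ^ (b + 6)) c E v = true ↔
      if (c : ℚ) / E ≤ 1 / 2 ^ (b + 7) ∨ 1 - (c : ℚ) / E ≤ 1 / 2 ^ (b + 7) then ¬ P
      else if (c : ℚ) / E - 1 / 2 ≤ 1 / 2 ^ (b + 7) ∧ 1 / 2 - (c : ℚ) / E ≤ 1 / 2 ^ (b + 7) then P
        else 1 < 2 * ((c : ℚ) / E) := by
  have hE' : (0 : ℚ) < E := by exact_mod_cast hE
  have hT : (0 : ℚ) < 2 ^ (b + 7) := by positivity
  have e7 : (2 : ℚ) ^ (b + 7) = 2 * 2 ^ (b + 6) := by ring
  have g1 : (Nat.ble (2 * 2 ^ (b + 6) * c) E || Nat.ble (2 * 2 ^ (b + 6) * (E - c)) E) = true ↔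
      (c : ℚ) / E ≤ 1 / 2 ^ (b + 7) ∨ 1 - (c : ℚ) / E ≤ 1 / 2 ^ (b + 7) := by
    simp only [Bool.or_eq_true, Nat.ble_eq]
    refine or_congr ?_ ?_
    · rw [div_le_div_iff₀ hE' hT, one_mul, e7, mul_comm (c : ℚ)]; norm_cast
    · rw [sub_le_iff, one_sub_div hE'.ne', div_le_div_iff₀ hE' hT, one_mul, e7,
        mul_comm ((E : ℚ) - c)]
      push_cast; rfl
  have g2 : (Nat.ble (2 ^ (b + 6) * (2 * c - E)) E && Nat.ble (2 ^ (b + 6) * (E - 2 * c)) E) = true ↔
      (c : ℚ) / E - 1 / 2 ≤ 1 / 2 ^ (b + 7) ∧ 1 / 2 - (c : ℚ) / E ≤ 1 / 2 ^ (b + 7) := by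
    simp only [Bool.and_eq_true, Nat.ble_eq]
    have e1 : (c : ℚ) / E - 1 / 2 = (2 * c - E) / 2 / E := by field_simp
    have e2 : 1 / 2 - (c : ℚ) / E = (E - 2 * c) / 2 / E := by field_simp
    refine and_congr ?_ ?_
    · rw [sub_le_iff, e1, div_le_div_iff₀ hE' hT, one_mul, e7]
      push_cast
      constructor <;> intro h <;> linarith
    · rw [sub_le_iff, e2, div_le_div_iff₀ hE' hT, one_mul, e7]
      push_cast
      constructor <;> intro h <;> linarith
  rw [finB]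
  split_ifs with h1 h2
  · rw [g1.2 h1, cond_true, ← hv]; simp
  · rw [Bool.eq_false_iff.2 (fun h => h1 (g1.1 h)), cond_false, g2.2 h2, cond_true, hv]
  · rw [Bool.eq_false_iff.2 (fun h => h1 (g1.1 h)), cond_false,
      Bool.eq_false_iff.2 (fun h => h2 (g2.1 h)), cond_false, Nat.blt_eq, ← mul_div_assoc,
      one_lt_div hE']
    norm_cast

/-- the approximate fractional part -/
def fr (C E : List Bool → ℕ) (z : List Bool) : ℚ := ((C z % E z : ℕ) : ℚ) / E z

section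
variable {C E : List Bool → ℕ}
  (hA : ∀ z, 0 < E z ∧ |(C z : ℚ) / E z - PhiZ z| ≤ 1 / ((2 ^ (bb (fstP z) + 11) : ℕ) : ℚ))
include hA

theorem fr_range (z : List Bool) : 0 ≤ fr C E z ∧ fr C E z < 1 := by
  have hE : (0 : ℚ) < E z := by exact_mod_cast (hA z).1
  refine ⟨by unfold fr; positivity, (div_lt_one hE).2 ?_⟩
  exact_mod_cast Nat.mod_lt _ (hA z).1

theorem fr_approx {x : List Bool} (h : (parseLines (fstP x)).length ≤ x.length) {r : ℕ}
    (hg : Good1 x r) (σ : ℕ) {I s q : ℕ} (hI : 2 * I ≤ Kb x) (hs : s ≤ Kb x) (hq : 0 < q) :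
    ∃ c : ℤ, |fr C E (qz x r σ I s q) - c -
      ((2 ^ s / q : ℕ) : ℚ) * ((2 * MZ x σ + 1) / 2 ^ I)| ≤ 1 / 2 ^ (bb x + 10) := by
  obtain ⟨c, hc⟩ := Phi_approx h hg σ hI hs hq
  obtain ⟨h1, h2⟩ := hA (qz x r σ I s q)
  rw [PhiZ_qz] at h2
  have e : fstP (qz x r σ I s q) = x := fstP_pair _ _
  rw [e] at h2
  generalize qz x r σ I s q = z at *
  have hE : (0 : ℚ) < E z := by exact_mod_cast h1
  have h4 : (E z : ℚ) * ((C z / E z : ℕ) : ℚ) + ((C z % E z : ℕ) : ℚ) = C z := by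
    exact_mod_cast Nat.div_add_mod (C z) (E z)
  have h5 : fr C E z = (C z : ℚ) / E z - ((C z / E z : ℕ) : ℚ) := by
    rw [fr, ← h4]; field_simp; ring
  refine ⟨c - (C z / E z : ℕ), ?_⟩
  have h6 : (1 : ℚ) / 2 ^ (bb x + 10) = 2 * (1 / 2 ^ (bb x + 11)) := by
    rw [pow_succ _ (bb x + 10)]; field_simp
  rw [h5, h6, Int.cast_sub, Int.cast_natCast]
  rw [Nat.cast_pow, Nat.cast_ofNat] at h2
  rw [abs_le] at hc h2 ⊢
  constructor <;> linarith

theorem call_correct {x : List Bool} (h : (parseLines (fstP x)).length ≤ x.length) {r : ℕ}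
    (hg : Good1 x r) (σ : ℕ) {i : ℕ} (hi : i ≤ 2 ^ x.length + 1)
    (hg2 : ∀ s < Kb x, ∀ z : ℤ, |z - 2 ^ s * yy (MZ x σ) i| ≤ 3 → (qq x r : ℤ) ∣ z → z = 0) :
    call C E x r σ i = true ↔ MZ x σ / 2 ^ i % 2 = 1 := by
  have hq := qq_ge x r
  have hK := Kb_eq x
  have hx : 0 < 2 ^ x.length := by positivity
  let φ : ℕ → ℚ := fun s => fr C E (qz x r σ (i + 1) s (qq x r))
  let g : ℕ → Bool := fun s => smallB (qq x r) (C (qz x r σ (i + 1) s (qq x r)) %
    E (qz x r σ (i + 1) s (qq x r))) (E (qz x r σ (i + 1) s (qq x r)))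
  have hgφ : ∀ s, g s = true ↔ (qq x r * φ s ≤ 2 ∨ qq x r - qq x r * φ s ≤ 2) := fun s =>
    smallB_iff (hA _).1 (Nat.mod_lt _ (hA _).1).le
  have e1 : loop (rnd C E x r σ i) (ub x) = loop (fun l => g (cand (ub x) l)) (ub x) :=
    loop_congr _ (fun l hl => by
      have : Nat.blt l.length (ub x) = true := by simpa [Nat.blt_eq] using hl
      simp only [rnd, out, qry, this, cond_true, g])
  obtain ⟨h1, h2, h3⟩ := greedy g (ub x)
  rw [← e1, ← Kb] at h1 h3
  rw [← e1] at h2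
  have f1 : Nat.blt (ub x) (ub x) = false := by rw [Bool.eq_false_iff]; simp [Nat.blt_eq]
  have f2 : Nat.blt (ub x + 1) (ub x) = false := by rw [Bool.eq_false_iff]; simp [Nat.blt_eq]
  have f3 : (ub x + 1 == ub x) = false := by simp
  have e2 : (loop (rnd C E x r σ i) (ub x + 1)).getD (ub x) false =
      posB (qq x r) (C (qz x r σ (i + 1) (msb (loop (rnd C E x r σ i) (ub x)) 0) (qq x r)) %
        E (qz x r σ (i + 1) (msb (loop (rnd C E x r σ i) (ub x)) 0) (qq x r)))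
        (E (qz x r σ (i + 1) (msb (loop (rnd C E x r σ i) (ub x)) 0) (qq x r))) := by
    rw [loop_succ, List.getD_append_right _ _ _ _ (by simp)]
    simp only [length_loop, Nat.sub_self, List.getD_cons_zero]
    conv_lhs => rw [rnd, out, qry]
    simp only [length_loop, f1, cond_false, beq_self_eq_true, cond_true]
  have e3 : call C E x r σ i = finB (2 ^ (bb x + 6)) (C (qz x r σ (i + 2) 0 1) %
      E (qz x r σ (i + 2) 0 1)) (E (qz x r σ (i + 2) 0 1))
      ((loop (rnd C E x r σ i) (ub x + 1)).getD (ub x) false) := by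
    rw [call, loop_succ _ (ub x + 1), List.getD_append_right _ _ _ _ (by simp)]
    simp only [length_loop, Nat.sub_self, List.getD_cons_zero]
    conv_lhs => rw [rnd, out, qry]
    simp only [length_loop, f2, f3, cond_false]
  rw [e3, e2]
  generalize msb (loop (rnd C E x r σ i) (ub x)) 0 = s at h1 h2 h3
  rw [finB_iff (hA _).1 (posB_iff (by omega) (hA _).1)]
  refine bit_correct (φ := φ) (W := Kb x) hq (qq_le x r) (by omega) (fun s => fr_range hA _)
    (fun s hs => fr_approx hA h hg σ (by omega) hs.le (by omega)) hg2 ?_ (fr_range hA _) h1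
    (h2.imp id (hgφ s).1) (h3.imp id fun h4 h5 => by
      rw [(hgφ _).2 h5] at h4; exact absurd h4 (by simp))
  obtain ⟨c, hc⟩ := fr_approx hA h hg σ (I := i + 2) (s := 0) (q := 1) (by omega) (by omega)
    (by omega)
  refine ⟨c, ?_⟩
  have e : xx (MZ x σ) i / 2 = ((2 ^ 0 / 1 : ℕ) : ℚ) * ((2 * MZ x σ + 1) / 2 ^ (i + 2)) := by
    rw [xx, pow_succ _ (i + 1)]; simp [div_div]
  rw [e]
  exact hc

end

end Pool.Agent.P.MP_d7de43_lc.Bit
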