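import Pool.Agent.P.MP_d7de43_lc.Defs

/-!
The language BitSLP.
-/

namespace Pool.Agent.P.MP_d7de43_lc

/-- Pairs of a straight-line program and a position `i` in binary such that the `i`-th binary
digit of the absolute value of the computed integer is `1`. -/
def BitSLP : Set (List Bool) :=
  {x | ∃ P i, Valid P ∧ pair (code P) (Nat.bits i) = x ∧
    ((values P).getD P.length 0).natAbs.testBit i = true}

end Pool.Agent.P.MP_d7de43_lc
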