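import Mathlib

/-!
Products of odd numbers and their 2-adic interpolation by a truncated binomial series.
-/

namespace Pool.Agent.P.MP_d7de43_lc.Bit

open Finset

/-- the product of the first `n` odd numbers -/
def G (n : ℕ) : ℕ := ∏ k ∈ range n, (2 * k + 1)

theorem G_zero : G 0 = 1 := by simp [G]

theorem G_succ (n : ℕ) : G (n + 1) = G n * (2 * n + 1) := by rw [G, prod_range_succ, G]

theorem G_pos (n : ℕ) : 0 < G n := prod_pos fun _ _ => by omega

theorem G_odd (n : ℕ) : Odd (G n) := by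
  induction n with
  | zero => simp [G_zero]
  | succ n ih => rw [G_succ]; exact ih.mul ⟨n, rfl⟩

theorem G_le (n : ℕ) : G n ≤ (2 * n) ^ n := by
  have := prod_le_pow_card (range n) (fun k => 2 * k + 1) (2 * n)
    (fun k hk => by have := mem_range.1 hk; omega)
  rwa [card_range] at this

theorem G_mul (n : ℕ) : G n * 2 ^ n * n.factorial = (2 * n).factorial := by
  induction n with
  | zero => simp [G_zero]
  | succ n ih =>
    rw [show 2 * (n + 1) = 2 * n + 1 + 1 by ring, Nat.factorial_succ, Nat.factorial_succ,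
      Nat.factorial_succ, ← ih, G_succ]
    ring

theorem G_mul' (n : ℕ) : G n * 2 ^ n = (2 * n).choose n * n.factorial := by
  have h := Nat.choose_mul_factorial_mul_factorial (show n ≤ 2 * n by omega)
  rw [show 2 * n - n = n by omega, ← G_mul] at h
  exact (Nat.eq_of_mul_eq_mul_right (Nat.factorial_pos n) h).symm

/-- the coefficients of the binomial series -/
def ma : ℕ → ℕ
  | 0 => 1
  | 1 => 0
  | k + 2 => 2 * (k + 1) * (ma (k + 1) + ma k)

theorem ma_dvd : ∀ k, 2 ^ (k / 2) ∣ ma k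
  | 0 => by simp
  | 1 => by simp
  | k + 2 => by
    rw [ma, show (k + 2) / 2 = k / 2 + 1 by omega, pow_succ', mul_assoc]
    refine Nat.mul_dvd_mul_left 2 (Dvd.dvd.mul_left (dvd_add ?_ (ma_dvd k)) _)
    exact (pow_dvd_pow 2 (by omega)).trans (ma_dvd (k + 1))

theorem ma_le (K : ℕ) : ∀ k, k ≤ K → ma k ≤ (4 * K) ^ k
  | 0, _ => by simp [ma]
  | 1, _ => by simp [ma]
  | k + 2, h => by
    have h1 := ma_le K (k + 1) (by omega)
    have h2 := ma_le K k (by omega)
    have h3 : (4 * K) ^ k ≤ (4 * K) ^ (k + 1) := Nat.pow_le_pow_right (by omega) (by omega)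
    rw [ma, pow_succ _ (k + 1)]
    calc 2 * (k + 1) * (ma (k + 1) + ma k) ≤ 2 * K * ((4 * K) ^ (k + 1) + (4 * K) ^ (k + 1)) :=
          Nat.mul_le_mul (by omega) (by omega)
      _ = _ := by ring

theorem fact_mul_choose (y : ℤ) (k : ℕ) :
    (k.factorial : ℤ) * Ring.choose y k = ∏ i ∈ range k, (y - i) := by
  rw [← nsmul_eq_mul, ← Ring.descPochhammer_eq_factorial_smul_choose]
  induction k with
  | zero => simp
  | succ k ih =>
    rw [descPochhammer_succ_right, Polynomial.smeval_mul, ih, prod_range_succ]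
    simp [Polynomial.smeval_sub, Polynomial.smeval_natCast]

theorem choose_step (y : ℤ) (k : ℕ) :
    ((k : ℤ) + 1) * Ring.choose y (k + 1) = (y - k) * Ring.choose y k := by
  have h1 := fact_mul_choose y (k + 1)
  rw [prod_range_succ, ← fact_mul_choose, Nat.factorial_succ] at h1
  have h2 : (k.factorial : ℤ) ≠ 0 := by exact_mod_cast Nat.factorial_ne_zero k
  refine mul_left_cancel₀ h2 ?_
  push_cast at h1
  linear_combination h1

theorem abs_choose_le (y : ℤ) (k B : ℕ) (h : |y| + k ≤ B) : |Ring.choose y k| ≤ (B : ℤ) ^ k := by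
  have h1 : |Ring.choose y k| ≤ |(k.factorial : ℤ) * Ring.choose y k| := by
    rw [abs_mul]
    refine le_mul_of_one_le_left (abs_nonneg _) ?_
    rw [Nat.abs_cast]
    exact_mod_cast Nat.factorial_pos k
  refine h1.trans ?_
  rw [fact_mul_choose, abs_prod]
  calc ∏ i ∈ range k, |y - i| ≤ ∏ _i ∈ range k, (B : ℤ) := by
        refine prod_le_prod (fun _ _ => abs_nonneg _) fun i hi => ?_
        have h2 : (i : ℤ) < k := by exact_mod_cast mem_range.1 hi
        have h3 := abs_sub y i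
        rw [Nat.abs_cast] at h3
        linarith
    _ = _ := by simp

/-- the truncated binomial series -/
def H (K : ℕ) (y : ℤ) : ℤ := ∑ k ∈ range K, (ma k : ℤ) * Ring.choose y k

theorem H_step (k : ℕ) (y : ℤ) : H (k + 1) (y + 1) - (2 * y + 1) * H (k + 1) y =
    -(ma (k + 1) : ℤ) * Ring.choose y k - 2 * (k + 1) * ma k * Ring.choose y (k + 1) := by
  induction k with
  | zero => simp [H, ma]
  | succ k ih =>
    have h1 := choose_step y (k + 1)
    have h2 := Ring.choose_succ_succ y k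
    rw [H, H, sum_range_succ, sum_range_succ _ (k + 1), ← H, ← H, h2, ma]
    push_cast at h1 ⊢
    linear_combination ih + 2 * (ma (k + 1) : ℤ) * h1

theorem H_zero (k : ℕ) : H (k + 1) 0 = 1 := by
  rw [H, sum_range_succ']
  simp [ma]

theorem H_step_dvd (k : ℕ) (y : ℤ) :
    (2 : ℤ) ^ ((k + 1) / 2) ∣ H (k + 1) (y + 1) - (2 * y + 1) * H (k + 1) y := by
  rw [H_step]
  have h1 : (2 : ℤ) ^ ((k + 1) / 2) ∣ (ma (k + 1) : ℤ) := by exact_mod_cast ma_dvd (k + 1)
  have h2 : (2 : ℤ) ^ (k / 2) ∣ (ma k : ℤ) := by exact_mod_cast ma_dvd k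
  refine dvd_sub (Dvd.dvd.mul_right (dvd_neg.2 h1) _) (Dvd.dvd.mul_right ?_ _)
  refine (pow_dvd_pow 2 (show (k + 1) / 2 ≤ k / 2 + 1 by omega)).trans ?_
  rw [pow_succ', mul_assoc]
  exact mul_dvd_mul_left 2 (h2.mul_left _)

theorem H_nat (k n : ℕ) : H (k + 1) n ≡ G n [ZMOD 2 ^ ((k + 1) / 2)] := by
  induction n with
  | zero => simp [H_zero, G_zero]
  | succ n ih =>
    have h := (Int.modEq_iff_dvd.2 (H_step_dvd k n)).symm
    rw [G_succ]
    push_cast
    refine h.trans ?_
    rw [mul_comm]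
    exact ih.mul_right _

theorem H_neg (k n : ℕ) : H (k + 1) (-n) * ((-1) ^ n * G n) ≡ 1 [ZMOD 2 ^ ((k + 1) / 2)] := by
  induction n with
  | zero => simp [H_zero, G_zero]
  | succ n ih =>
    have h := Int.modEq_iff_dvd.2 (H_step_dvd k (-((n + 1 : ℕ) : ℤ)))
    rw [show -((n + 1 : ℕ) : ℤ) + 1 = -n by push_cast; ring] at h
    refine Int.ModEq.trans ?_ ih
    refine Int.ModEq.trans ?_ (h.mul_right _)
    rw [G_succ]
    push_cast
    exact congrArg (· % _) (by ring)

theorem H_eq (k n : ℕ) (h : n ≤ k) : H (k + 1) n = G n := by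
  induction n with
  | zero => simp [H_zero, G_zero]
  | succ n ih =>
    have h1 := H_step k n
    rw [Ring.choose_natCast, Ring.choose_natCast, Nat.choose_eq_zero_of_lt (by omega),
      Nat.choose_eq_zero_of_lt (by omega), ih (by omega)] at h1
    rw [G_succ]
    push_cast at h1 ⊢
    linear_combination h1

theorem ma_eq (k : ℕ) :
    (ma k : ℤ) = ∑ j ∈ range (k + 1), (-1) ^ (k - j) * (k.choose j : ℤ) * G j := by
  have h1 : ∀ j ∈ range (k + 1), (-1) ^ (k - j) * (k.choose j : ℤ) * G j =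
      ∑ m ∈ range (k + 1), (ma m : ℤ) * ((-1) ^ (k - j) * (k.choose j : ℤ) * j.choose m) := by
    intro j hj
    rw [← H_eq k j (by have := mem_range.1 hj; omega), H, mul_sum]
    refine sum_congr rfl fun m _ => ?_
    rw [Ring.choose_natCast]; ring
  rw [sum_congr rfl h1, sum_comm]
  have h2 : ∀ m ∈ range (k + 1), ∑ j ∈ range (k + 1),
      (ma m : ℤ) * ((-1) ^ (k - j) * (k.choose j : ℤ) * j.choose m) =
      if k = m then (ma m : ℤ) else 0 := by
    intro m _
    have h3 := fwdDiff_iter_choose_zero m k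
    rw [fwdDiff_iter_eq_sum_shift] at h3
    simp only [smul_eq_mul, zero_add, mul_one] at h3
    rw [← mul_sum, h3]
    split_ifs <;> simp
  rw [sum_congr rfl h2]
  simp

theorem abs_H_le (K B : ℕ) (y : ℤ) (hK : 1 ≤ K) (h : |y| + K ≤ B) :
    |H K y| ≤ K * (4 * K * B : ℤ) ^ K := by
  have hB : (1 : ℤ) ≤ B := by
    have := abs_nonneg y
    have h2 : (1 : ℤ) ≤ K := by exact_mod_cast hK
    linarith
  have hK' : (1 : ℤ) ≤ K := by exact_mod_cast hK
  refine (abs_sum_le_sum_abs _ _).trans ?_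
  calc ∑ k ∈ range K, |(ma k : ℤ) * Ring.choose y k| ≤ ∑ _k ∈ range K, (4 * K * B : ℤ) ^ K := by
        refine sum_le_sum fun k hk => ?_
        have hk' := mem_range.1 hk
        have h1 : (ma k : ℤ) ≤ (4 * K) ^ k := by exact_mod_cast ma_le K k hk'.le
        have h2 := abs_choose_le y k B (by
          have : (k : ℤ) ≤ K := by exact_mod_cast hk'.le
          linarith)
        rw [abs_mul, Nat.abs_cast]
        calc (ma k : ℤ) * |Ring.choose y k| ≤ (4 * K) ^ k * (B : ℤ) ^ k := by gcongr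
          _ = (4 * K * B) ^ k := (mul_pow _ _ _).symm
          _ ≤ _ := pow_le_pow_right₀ (by nlinarith) hk'.le
    _ = _ := by simp

/-- the multiplier -/
def cc (K n L : ℕ) : ℤ := H K ((2 * L + 1 : ℕ) : ℤ) * H K (-L) * H K (-L) * H K (-n)

theorem cc_cong (k n L I : ℕ) (hn : Even n) (hI : 2 * I ≤ k + 1) :
    (2 : ℤ) ^ I ∣ cc (k + 1) n L * (G n * G L ^ 2) - G (2 * L + 1) := by
  refine (pow_dvd_pow 2 (show I ≤ (k + 1) / 2 by omega)).trans ?_
  refine Int.ModEq.dvd (Int.ModEq.symm ?_)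
  have h1 := H_nat k (2 * L + 1)
  have h2 := H_neg k L
  have h3 := H_neg k n
  have h4 := ((h1.mul h2).mul h2).mul h3
  rw [hn.neg_one_pow] at h4
  have h5 : ((-1 : ℤ) ^ L) ^ 2 = 1 := by rw [← pow_mul, mul_comm, pow_mul]; simp
  simp only [mul_one] at h4
  refine Int.ModEq.trans ?_ h4
  rw [cc]
  refine congrArg (· % _) ?_
  linear_combination (-(H (k + 1) ((2 * L + 1 : ℕ) : ℤ) * H (k + 1) (-L) * H (k + 1) (-L) *
    H (k + 1) (-n) * (G n * G L ^ 2))) * h5

theorem G_ratio (L : ℕ) : 2 ^ L * G L ^ 2 ≤ G (2 * L + 1) := by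
  have h1 : G (2 * L + 1) = G L * (∏ m ∈ range L, (2 * (L + m) + 1)) * (4 * L + 1) := by
    rw [G_succ, two_mul L, G, prod_range_add, ← G]; congr 1; ring
  have h2 : 2 ^ L * G L ≤ ∏ m ∈ range L, (2 * (L + m) + 1) := by
    calc 2 ^ L * G L = ∏ m ∈ range L, (2 * (2 * m + 1)) := by
          rw [prod_mul_distrib, prod_const, card_range, G]
      _ ≤ _ := prod_le_prod' fun m hm => by have := mem_range.1 hm; omega
  rw [h1]
  calc 2 ^ L * G L ^ 2 = G L * (2 ^ L * G L) * 1 := by ring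
    _ ≤ _ := Nat.mul_le_mul (Nat.mul_le_mul_left _ h2) (by omega)

end Pool.Agent.P.MP_d7de43_lc.Bit
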