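import Pool.Agent.P.MP_d7de43_lc.Bit.Gam

/-!
Partial fractions of a quotient of products of odd numbers; smooth odd numbers.
-/

namespace Pool.Agent.P.MP_d7de43_lc.Bit

open Finset Polynomial

theorem prod_erase_sub (j d : ℕ) : ∏ k ∈ (range (j + 1 + d)).erase j, ((k : ℚ) - j) =
    (-1) ^ j * j.factorial * d.factorial := by
  induction d with
  | zero =>
    have e : (range (j + 1 + 0)).erase j = range j := by
      ext x; simp only [mem_erase, mem_range]; omega
    have h := fact_mul_choose j j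
    rw [Ring.choose_natCast, Nat.choose_self] at h
    have h2 : (j.factorial : ℚ) = ∏ i ∈ range j, ((j : ℚ) - i) := by
      have := congrArg (fun z : ℤ => (z : ℚ)) h
      simpa using this
    rw [e, h2]
    calc ∏ k ∈ range j, ((k : ℚ) - j) = ∏ k ∈ range j, ((-1) * ((j : ℚ) - k)) :=
          prod_congr rfl fun _ _ => by ring
      _ = _ := by rw [prod_mul_distrib, prod_const, card_range]; simp
  | succ d ih =>
    have e : (range (j + 1 + (d + 1))).erase j =
        insert (j + 1 + d) ((range (j + 1 + d)).erase j) := by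
      ext x; simp only [mem_erase, mem_range, mem_insert]; omega
    rw [e, prod_insert (by simp), ih, Nat.factorial_succ]
    push_cast; ring

theorem prod_shift (j L : ℕ) :
    (j.factorial : ℚ) * ∏ k ∈ range L, ((j : ℚ) + k + 1) = (j + L).factorial := by
  induction L with
  | zero => simp
  | succ L ih =>
    rw [prod_range_succ, ← mul_assoc, ih, ← add_assoc, Nat.factorial_succ]
    push_cast; ring

theorem pfrac (L : ℕ) : (G L : ℚ) ^ 2 / G (2 * L + 1) = ∑ j ∈ range (L + 1),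
    (-1) ^ (L + j) * ((L + j).choose j : ℚ) * L.choose j / ((2 * L + 1 + 2 * j : ℕ) : ℚ) := by
  let v : ℕ → ℚ := fun j => -2 * j
  let f : ℚ[X] := ∏ k ∈ range L, (X - C (2 * (k : ℚ) + 2))
  have hv : Set.InjOn v (range (L + 1) : Finset ℕ) := by
    intro a _ b _ h
    simp only [v] at h
    have : (a : ℚ) = b := by linarith
    exact_mod_cast this
  have hdeg : f.degree < (range (L + 1)).card := by
    rw [card_range, degree_prod]
    simp only [degree_X_sub_C, sum_const, card_range, nsmul_eq_mul, mul_one]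
    exact_mod_cast Nat.lt_succ_self L
  have hx : ∀ i ∈ range (L + 1), (2 * (L : ℚ) + 1) ≠ v i := by
    intro i _ h
    simp only [v] at h
    have h1 : (0 : ℚ) ≤ L := by positivity
    have h2 : (0 : ℚ) ≤ i := by positivity
    linarith
  have h := congrArg (eval (2 * (L : ℚ) + 1)) (Lagrange.eq_interpolate hv hdeg)
  rw [Lagrange.eval_interpolate_not_at_node _ hx, Lagrange.eval_nodal] at h
  have e1 : eval (2 * (L : ℚ) + 1) f = G L := by
    simp only [f, eval_prod, eval_sub, eval_X, eval_C, G]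
    rw [← prod_range_reflect]
    push_cast
    refine prod_congr rfl fun k hk => ?_
    have hk' := mem_range.1 hk
    rw [Nat.cast_sub (by omega), Nat.cast_sub (by omega)]
    push_cast; ring
  have e2 : (G L : ℚ) * ∏ i ∈ range (L + 1), (2 * (L : ℚ) + 1 - v i) = G (2 * L + 1) := by
    rw [show 2 * L + 1 = L + (L + 1) by ring, G, G, prod_range_add _ L (L + 1)]
    push_cast
    congr 1
    exact prod_congr rfl fun k _ => by simp only [v]; ring
  have hG : (G L : ℚ) ≠ 0 := by exact_mod_cast (G_pos L).ne'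
  have hG2 : (G (2 * L + 1) : ℚ) ≠ 0 := by exact_mod_cast (G_pos _).ne'
  have hP : ∏ i ∈ range (L + 1), (2 * (L : ℚ) + 1 - v i) ≠ 0 := by
    intro h0; rw [h0, mul_zero] at e2; exact hG2 e2.symm
  rw [e1] at h
  have e3 : (G L : ℚ) ^ 2 / G (2 * L + 1) =
      ∑ i ∈ range (L + 1), Lagrange.nodalWeight (range (L + 1)) v i *
        (2 * (L : ℚ) + 1 - v i)⁻¹ * eval (v i) f := by
    rw [← e2, div_eq_iff (mul_ne_zero hG hP), sq]
    nth_rewrite 2 [h]
    ring
  rw [e3]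
  refine sum_congr rfl fun j hj => ?_
  obtain ⟨d, rfl⟩ : ∃ d, L = j + d := ⟨L - j, by have := mem_range.1 hj; omega⟩
  have w1 : Lagrange.nodalWeight (range (j + d + 1)) v j =
      ((2 : ℚ) ^ (j + d) * ((-1) ^ j * (j.factorial : ℚ) * (d.factorial : ℚ)))⁻¹ := by
    rw [Lagrange.nodalWeight, prod_inv_distrib, ← prod_erase_sub,
      show j + 1 + d = j + d + 1 by ring]
    congr 1
    calc ∏ k ∈ (range (j + d + 1)).erase j, (v j - v k)
        = ∏ k ∈ (range (j + d + 1)).erase j, (2 * ((k : ℚ) - j)) :=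
          prod_congr rfl fun _ _ => by simp only [v]; ring
      _ = _ := by rw [prod_mul_distrib, prod_const, card_erase_of_mem hj, card_range]; simp
  have w2 : (j.factorial : ℚ) * eval (v j) f = (-2) ^ (j + d) * (j + (j + d)).factorial := by
    rw [← prod_shift, mul_left_comm]
    congr 1
    simp only [f, eval_prod, eval_sub, eval_X, eval_C, v]
    calc ∏ k ∈ range (j + d), (-2 * (j : ℚ) - (2 * k + 2))
        = ∏ k ∈ range (j + d), ((-2) * ((j : ℚ) + k + 1)) := prod_congr rfl fun _ _ => by ring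
      _ = _ := by rw [prod_mul_distrib, prod_const, card_range]
  have hj0 : (j.factorial : ℚ) ≠ 0 := by exact_mod_cast Nat.factorial_ne_zero j
  have hd0 : (d.factorial : ℚ) ≠ 0 := by exact_mod_cast Nat.factorial_ne_zero d
  have hjd : ((j + d).factorial : ℚ) ≠ 0 := by exact_mod_cast Nat.factorial_ne_zero _
  have w3 : eval (v j) f = (-2) ^ (j + d) * (j + (j + d)).factorial / j.factorial := by
    rw [eq_div_iff hj0, mul_comm, w2]
  rw [w1, w3, Nat.cast_choose ℚ (Nat.le_add_left j (j + d)), Nat.cast_choose ℚ (Nat.le_add_right j d),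
    Nat.add_sub_cancel, Nat.add_sub_cancel_left, add_comm j (j + d), neg_pow (2 : ℚ),
    pow_add (-1 : ℚ) (j + d) j]
  have hs : ((-1 : ℚ) ^ j) * (-1) ^ j = 1 := by rw [← mul_pow]; simp
  have hs' : ((-1 : ℚ) ^ j)⁻¹ = (-1) ^ j := inv_eq_of_mul_eq_one_right hs
  have hT : (2 * ((j + d : ℕ) : ℚ) + 1 - v j) = ((2 * (j + d) + 1 + 2 * j : ℕ) : ℚ) := by
    simp only [v]; push_cast; ring
  have hT0 : ((2 * (j + d) + 1 + 2 * j : ℕ) : ℚ) ≠ 0 := by positivity
  rw [hT, mul_inv, mul_inv, mul_inv, hs']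
  field_simp

theorem odd_dvd_G {m n : ℕ} (hm : Odd m) (h : m < 2 * n) : m ∣ G n := by
  obtain ⟨k, rfl⟩ := hm
  exact dvd_prod_of_mem (fun k => 2 * k + 1) (mem_range.2 (by omega))

theorem G_dvd_G {m n : ℕ} (h : m ≤ n) : G m ∣ G n :=
  prod_dvd_prod_of_subset _ _ _ (range_subset_range.2 h)

theorem pow_dvd_G (h e : ℕ) : (2 * h + 1) ^ (e + 1) ∣ G (e * (2 * h + 1) + h + 1) := by
  induction e with
  | zero => simpa using odd_dvd_G ⟨h, rfl⟩ (by omega)
  | succ e ih =>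
    rw [G_succ, pow_succ]
    refine Nat.mul_dvd_mul (ih.trans (G_dvd_G (by nlinarith))) ⟨2 * (e + 1) + 1, by ring⟩

theorem sq_le_three (d : ℕ) : (2 * d + 3) ^ 2 ≤ 9 * 3 ^ d := by
  induction d with
  | zero => norm_num
  | succ d ih =>
    have h : (2 * (d + 1) + 3) ^ 2 ≤ 3 * (2 * d + 3) ^ 2 := by nlinarith [Nat.zero_le (d * d)]
    rw [pow_succ 3]; omega

theorem smooth_dvd {m n : ℕ} (hm : Odd m) (h9 : 9 * m < (2 * n) ^ 2)
    (hp : ∀ l, l.Prime → l ∣ m → l < 2 * n) : m ∣ G n := by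
  rw [Nat.dvd_iff_prime_pow_dvd_dvd]
  intro l e hl hle
  rcases e with _ | e
  · simp
  have hlm : l ∣ m := (dvd_pow_self l (by omega)).trans hle
  obtain ⟨h, rfl⟩ : Odd l := hm.of_dvd_nat hlm
  refine (pow_dvd_G h e).trans (G_dvd_G ?_)
  rcases e with _ | d
  · have := hp _ hl hlm
    omega
  · have h1 : (2 * h + 1) ^ (d + 1 + 1) ≤ m := Nat.le_of_dvd hm.pos hle
    have h2 := hl.two_le
    have h3 : 3 ^ d ≤ (2 * h + 1) ^ d := Nat.pow_le_pow_left (by omega) d
    have h4 := sq_le_three d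
    have h5 : ((2 * d + 3) * (2 * h + 1)) ^ 2 < (2 * n) ^ 2 := by
      calc ((2 * d + 3) * (2 * h + 1)) ^ 2 = (2 * d + 3) ^ 2 * (2 * h + 1) ^ 2 := mul_pow _ _ _
        _ ≤ 9 * (2 * h + 1) ^ d * (2 * h + 1) ^ 2 := Nat.mul_le_mul_right _ (by omega)
        _ = 9 * (2 * h + 1) ^ (d + 1 + 1) := by ring
        _ < _ := by omega
    have h6 := lt_of_pow_lt_pow_left₀ 2 (by positivity) h5
    nlinarith

/-- the coefficient of a simple fraction -/
def R (L j : ℕ) : ℤ := (-1) ^ (L + j) * ((L + j).choose j : ℤ) * L.choose j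

theorem term_frac (n L W j : ℕ) (hj : j ≤ L) (h9 : 9 * (4 * L + 1) < (2 * n) ^ 2)
    (hW : 4 * L + 1 < W) (B : ℤ) (Z : ℕ → ℕ)
    (hZ : ∀ p, p.Prime → 2 * n ≤ p → p ∣ 2 * L + 1 + 2 * j → ((Z p : ℕ) : ZMod p) =
      (B : ZMod p) * G n * (((2 * L + 1 + 2 * j) / p : ℕ) : ZMod p) ^ (p - 2) * R L j) :
    ∃ c : ℤ, (B : ℚ) * G n * R L j / ((2 * L + 1 + 2 * j : ℕ) : ℚ) = c + ∑ p ∈ range W,
      if p.Prime ∧ 2 * n ≤ p ∧ p ∣ 2 * L + 1 + 2 * j then (Z p : ℚ) / p else 0 := by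
  have hodd : Odd (2 * L + 1 + 2 * j) := ⟨L + j, by ring⟩
  by_cases hex : ∃ p, p.Prime ∧ 2 * n ≤ p ∧ p ∣ 2 * L + 1 + 2 * j
  · obtain ⟨p, hp, hnp, k, hk⟩ := hex
    have : Fact p.Prime := ⟨hp⟩
    have hk0 : 0 < k := by
      rcases Nat.eq_zero_or_pos k with h | h
      · rw [h] at hk; omega
      · exact h
    have hkn : k < 2 * n := by
      by_contra hc
      have : (2 * n) * (2 * n) ≤ p * k := Nat.mul_le_mul hnp (by omega)
      nlinarith
    have hpW : p < W := by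
      have : p * 1 ≤ p * k := Nat.mul_le_mul_left _ hk0
      omega
    rw [sum_eq_single p, if_pos ⟨hp, hnp, ⟨k, hk⟩⟩]
    · have hmod := hZ p hp hnp ⟨k, hk⟩
      obtain ⟨q, hq⟩ : k ∣ G n := odd_dvd_G (hodd.of_dvd_nat ⟨p, by rw [hk, mul_comm]⟩) hkn
      have hdiv : (2 * L + 1 + 2 * j) / p = k := by
        rw [hk]; exact Nat.mul_div_cancel_left k hp.pos
      have hk1 : (k : ZMod p) ≠ 0 := by
        rw [Ne, ZMod.natCast_eq_zero_iff]
        intro h
        have := Nat.le_of_dvd hk0 h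
        omega
      have hk2 : (k : ZMod p) * (k : ZMod p) ^ (p - 2) = 1 := by
        rw [← pow_succ', show p - 2 + 1 = p - 1 by have := hp.two_le; omega]
        exact ZMod.pow_card_sub_one_eq_one hk1
      have hz : (((B * q * R L j - Z p : ℤ)) : ZMod p) = 0 := by
        push_cast
        rw [hmod, hdiv, hq]
        push_cast
        linear_combination (-(B : ZMod p) * q * R L j) * hk2
      obtain ⟨c, hc⟩ := (ZMod.intCast_zmod_eq_zero_iff_dvd _ p).1 hz
      refine ⟨c, ?_⟩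
      have hc' : (B : ℚ) * q * R L j - Z p = p * c := by
        exact_mod_cast congrArg (fun z : ℤ => (z : ℚ)) hc
      have hpq : (0 : ℚ) < p := by exact_mod_cast hp.pos
      have hkq : (0 : ℚ) < k := by exact_mod_cast hk0
      rw [hk, hq]
      push_cast
      field_simp
      linear_combination hc'
    · intro p' _ hne
      refine if_neg ?_
      rintro ⟨hp', hLp', hd⟩
      rw [hk] at hd
      rcases (Nat.Prime.dvd_mul hp').1 hd with h | h
      · exact hne ((Nat.prime_dvd_prime_iff_eq hp' hp).1 h)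
      · have := Nat.le_of_dvd hk0 h
        omega
    · intro h; exact absurd (mem_range.2 hpW) h
  · obtain ⟨q, hq⟩ : 2 * L + 1 + 2 * j ∣ G n := by
      refine smooth_dvd hodd (by omega) fun l hl hd => ?_
      by_contra hc
      exact hex ⟨l, hl, by omega, hd⟩
    refine ⟨B * q * R L j, ?_⟩
    rw [sum_eq_zero fun p _ => if_neg fun h => hex ⟨p, h⟩, hq]
    have hpos : (0 : ℚ) < ((2 * L + 1 + 2 * j : ℕ) : ℚ) := by positivity
    rw [Nat.cast_mul]
    generalize ((2 * L + 1 + 2 * j : ℕ) : ℚ) = m at hpos ⊢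
    push_cast
    field_simp
    ring

/-- the tiny number -/
def rr (n L : ℕ) : ℚ := (G n : ℚ) * G L ^ 2 / G (2 * L + 1)

theorem rr_frac (n L W : ℕ) (h9 : 9 * (4 * L + 1) < (2 * n) ^ 2) (hW : 4 * L + 1 < W) (B : ℤ)
    (Z : ℕ → ℕ → ℕ)
    (hZ : ∀ j ≤ L, ∀ p, p.Prime → 2 * n ≤ p → p ∣ 2 * L + 1 + 2 * j → ((Z j p : ℕ) : ZMod p) =
      (B : ZMod p) * G n * (((2 * L + 1 + 2 * j) / p : ℕ) : ZMod p) ^ (p - 2) * R L j) :
    ∃ c : ℤ, (B : ℚ) * rr n L = c + ∑ j ∈ range (L + 1), ∑ p ∈ range W,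
      if p.Prime ∧ 2 * n ≤ p ∧ p ∣ 2 * L + 1 + 2 * j then (Z j p : ℚ) / p else 0 := by
  have h : ∀ j : ℕ, ∃ c : ℤ, j ≤ L →
      (B : ℚ) * G n * R L j / ((2 * L + 1 + 2 * j : ℕ) : ℚ) = c + ∑ p ∈ range W,
        if p.Prime ∧ 2 * n ≤ p ∧ p ∣ 2 * L + 1 + 2 * j then (Z j p : ℚ) / p else 0 := by
    intro j
    by_cases hj : j ≤ L
    · obtain ⟨c, hc⟩ := term_frac n L W j hj h9 hW B (Z j) (hZ j hj)
      exact ⟨c, fun _ => hc⟩
    · exact ⟨0, fun h => absurd h hj⟩
  choose c hc using h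
  refine ⟨∑ j ∈ range (L + 1), c j, ?_⟩
  rw [rr, mul_div_assoc, pfrac, mul_sum, mul_sum, Int.cast_sum, ← sum_add_distrib]
  refine sum_congr rfl fun j hj => ?_
  rw [← hc j (by have := mem_range.1 hj; omega), R]
  push_cast; ring

/-- The fractional part of `A / 2 ^ I` as one sum of fractions with prime denominators. -/
theorem two_frac (k n L W I : ℕ) (hn : Even n) (hI : 2 * I ≤ k + 1)
    (h9 : 9 * (4 * L + 1) < (2 * n) ^ 2) (hW : 4 * L + 1 < W) (A : ℤ) (Z : ℕ → ℕ → ℕ)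
    (hZ : ∀ j ≤ L, ∀ p, p.Prime → 2 * n ≤ p → p ∣ 2 * L + 1 + 2 * j → ((Z j p : ℕ) : ZMod p) =
      -(A : ZMod p) * (((p + 1) / 2 : ℕ) : ZMod p) ^ I * cc (k + 1) n L * G n *
        (((2 * L + 1 + 2 * j) / p : ℕ) : ZMod p) ^ (p - 2) * R L j) :
    ∃ c : ℤ, (∑ j ∈ range (L + 1), ∑ p ∈ range W,
      if p.Prime ∧ 2 * n ≤ p ∧ p ∣ 2 * L + 1 + 2 * j then (Z j p : ℚ) / p else 0) =
        c + (A : ℚ) / 2 ^ I - A * cc (k + 1) n L * rr n L / 2 ^ I := by
  obtain ⟨e, he⟩ := cc_cong k n L I hn hI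
  have hcop : IsCoprime ((2 : ℤ) ^ I) (G (2 * L + 1) : ℤ) := by
    have := (Nat.coprime_two_left.2 (G_odd (2 * L + 1))).pow_left I
    exact_mod_cast Nat.isCoprime_iff_coprime.2 this
  obtain ⟨h, g, hg⟩ := hcop
  obtain ⟨c, hc⟩ := rr_frac n L W h9 hW (-A * h * cc (k + 1) n L) Z (fun j hj p hp hnp hd => by
    rw [hZ j hj p hp hnp hd]
    have hodd : Odd p := Odd.of_dvd_nat ⟨L + j, by ring⟩ hd
    have h1 : p ∣ G (2 * L + 1) := hd.trans (odd_dvd_G ⟨L + j, by ring⟩ (by omega))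
    have h2 : ((G (2 * L + 1) : ℕ) : ZMod p) = 0 := (ZMod.natCast_eq_zero_iff _ _).2 h1
    have h3 : (h : ZMod p) * 2 ^ I = 1 := by
      have := congrArg (fun z : ℤ => (z : ZMod p)) hg
      simpa [h2] using this
    have h4 : (((p + 1) / 2 : ℕ) : ZMod p) * 2 = 1 := by
      have h5 : (p + 1) / 2 * 2 = p + 1 := by obtain ⟨a, ha⟩ := hodd; omega
      have := congrArg (fun z : ℕ => (z : ZMod p)) h5
      simpa using this
    have h5 : (((p + 1) / 2 : ℕ) : ZMod p) ^ I = h := by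
      calc _ = (((p + 1) / 2 : ℕ) : ZMod p) ^ I * ((h : ZMod p) * 2 ^ I) := by rw [h3, mul_one]
        _ = h * ((((p + 1) / 2 : ℕ) : ZMod p) * 2) ^ I := by rw [mul_pow]; ring
        _ = h := by rw [h4, one_pow, mul_one]
    rw [h5]
    push_cast; ring)
  refine ⟨-c - A * h + A * e * g, ?_⟩
  rw [← sub_eq_iff_eq_add'] at hc
  rw [← hc, rr]
  have hG2 : (G (2 * L + 1) : ℚ) ≠ 0 := by exact_mod_cast (G_pos _).ne'
  have he' : (cc (k + 1) n L : ℚ) * (G n * G L ^ 2) = G (2 * L + 1) + 2 ^ I * e := by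
    have := congrArg (fun z : ℤ => (z : ℚ)) he
    push_cast at this
    linarith
  have hg' : (h : ℚ) * 2 ^ I + g * G (2 * L + 1) = 1 := by exact_mod_cast hg
  push_cast
  field_simp
  linear_combination (-(A : ℚ) * h * 2 ^ I + A) * he' - (A : ℚ) * e * 2 ^ I * hg'

end Pool.Agent.P.MP_d7de43_lc.Bit
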