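import Pool.Agent.P.MP_d7de43_lc.Bit.Res

/-!
One exponential sum that approximates `A / 2 ^ I` modulo one.
-/

namespace Pool.Agent.P.MP_d7de43_lc.Bit

open Pool.Agent.Lib.Helper47 Finset

set_option maxHeartbeats 400000

attribute [local irreducible] tt LL WW ww HH mm RR bb qq dg NZ zres cc rr G H

/-- parameters -/
def ub (x : List Bool) : ℕ := x.length + 18
/-- parameters -/
def Kb (x : List Bool) : ℕ := 2 ^ ub x
/-- the integer computed by the program, with a sign -/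
def MZ (x : List Bool) (σ : ℕ) : ℤ := (-1) ^ σ * NZ (parseLines (fstP x))

/-- the residue of the numerator modulo `p` -/
def beta (x : List Bool) (σ s q p : ℕ) : ℕ :=
  pw 2 s (p * q) / q * (2 * pw (p - 1) σ p * evalMod (parseLines (fstP x)) p + 1)

/-- admissible pairs -/
def okp (x : List Bool) (r j p : ℕ) : Bool :=
  test p (dg x r) && Nat.ble (2 * (4 * Kb x)) p && (2 * (Kb x * Kb x) + 1 + 2 * j) % p == 0

/-- the exponential sum -/
def Phi (x : List Bool) (r σ I s q : ℕ) : ℚ :=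
  ∑ j ∈ range (Kb x * Kb x + 1), ∑ p ∈ range (WW x), bif okp x r j p then
    (zres p (Kb x) (4 * Kb x) (Kb x * Kb x) j I (beta x σ s q p) : ℚ) * (((1 : ℕ) : ℚ) / p) else 0

section
variable {α : Type} [Enc α] {x : α → List Bool} {r σ I s q j p : α → ℕ}

theorem ps_ub (hx : PT x) : PS fun a => ub (x a) := (ps_length hx).add (PB.const 18)

@[fun_prop] theorem pt_ub (hx : PT x) : PT fun a => ub (x a) := by unfold ub; fun_prop

@[fun_prop] theorem pt_Kb (hx : PT x) : PT fun a => Kb (x a) :=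
  PT.pow (PT.const 2) (pt_ub hx) (ps_ub hx)

@[fun_prop] theorem pt_beta (hx : PT x) (h1 : PT σ) (h2 : PT s) (h3 : PT q) (h4 : PT p) :
    PT fun a => beta (x a) (σ a) (s a) (q a) (p a) := by unfold beta; fun_prop

@[fun_prop] theorem pt_okp (hx : PT x) (h1 : PT r) (h2 : PT j) (h3 : PT p) :
    PT fun a => okp (x a) (r a) (j a) (p a) := by unfold okp; fun_prop

theorem sq_Phi (hx : PT x) (h1 : PT r) (h2 : PT σ) (h3 : PT I) (h4 : PT s) (h5 : PT q) :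
    SQ fun a => Phi (x a) (r a) (σ a) (I a) (s a) (q a) := by
  refine SQ.sum (F := fun a j => ∑ p ∈ range (WW (x a)), bif okp (x a) (r a) j p then
    (zres p (Kb (x a)) (4 * Kb (x a)) (Kb (x a) * Kb (x a)) j (I a)
      (beta (x a) (σ a) (s a) (q a) p) : ℚ) * (((1 : ℕ) : ℚ) / p) else 0) ?_ (by fun_prop)
  refine SQ.sum (F := fun (b : α × ℕ) p => bif okp (x b.1) (r b.1) b.2 p then
    (zres p (Kb (x b.1)) (4 * Kb (x b.1)) (Kb (x b.1) * Kb (x b.1)) b.2 (I b.1)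
      (beta (x b.1) (σ b.1) (s b.1) (q b.1) p) : ℚ) * (((1 : ℕ) : ℚ) / p) else 0) ?_ (by fun_prop)
  refine SQ.cond (by fun_prop) (SQ.mul (sn_zres (by fun_prop) (by fun_prop) (by fun_prop)
    (by fun_prop) (by fun_prop) (by fun_prop) (by fun_prop)) (SQ.div (PT.const 1) (by fun_prop)))
    ((SQ.div (PT.const 0) (PT.const 1)).of_eq fun _ => by simp)

end

theorem tt_eq (x : List Bool) : tt x = ub x + 2 := by unfold tt ub; omega

theorem two_pow_tt (x : List Bool) : 2 ^ tt x = 4 * Kb x := by rw [tt_eq, Kb, pow_add]; ring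

theorem WW_Kb (x : List Bool) : WW x = 16 * (Kb x * Kb x) := by
  rw [WW_eq, LL_succ, two_pow_tt]; ring

theorem Kb_eq (x : List Bool) : Kb x = 2 ^ x.length * 2 ^ 18 := by rw [Kb, ub, pow_add]

theorem Kb_ge (x : List Bool) : 100 * (ub x + 2) ^ 2 ≤ Kb x := by
  have h := quad_le_pow _ (tt_ge x)
  rw [two_pow_tt, tt_eq] at h
  omega

theorem Kb_pos (x : List Bool) : 0 < Kb x := by unfold Kb; positivity

theorem ub_ge (x : List Bool) : 18 ≤ ub x := by unfold ub; omega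

attribute [local irreducible] ub Kb MZ beta okp

theorem Kb_100 (x : List Bool) : 100 ≤ Kb x := by
  have h := Kb_ge x
  have h2 : 1 ≤ (ub x + 2) ^ 2 := Nat.one_le_pow _ _ (by omega)
  omega

theorem MZ_bound {x : List Bool} (h : (parseLines (fstP x)).length ≤ x.length) (σ : ℕ) :
    |MZ x σ| ≤ 2 ^ 2 ^ x.length := by
  rw [MZ, abs_mul, abs_pow, abs_neg, abs_one, one_pow, one_mul]
  exact (NZ_bound _).trans
    (pow_le_pow_right₀ (by norm_num) (Nat.pow_le_pow_right (by norm_num) h))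

theorem beta_cast (x : List Bool) (σ s : ℕ) {q p : ℕ} (hq : 0 < q) (hp : p.Prime) :
    ((beta x σ s q p : ℕ) : ZMod p) =
      ((((2 ^ s / q : ℕ) : ℤ) * (2 * MZ x σ + 1) : ℤ) : ZMod p) := by
  have : Fact p.Prime := ⟨hp⟩
  rw [beta, pw_eq (Nat.mul_pos hp.pos hq), Nat.mod_mul_left_div_self, Nat.cast_mul,
    ZMod.natCast_mod, Int.cast_mul, Int.cast_natCast, MZ]
  push_cast
  rw [evalMod_cast hp.pos, pw_cast hp.pos, cast_pred, mul_assoc]

theorem rr_pos (n L : ℕ) : 0 ≤ rr n L := by unfold rr; positivity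

theorem rr_le (n L : ℕ) : 2 ^ L * rr n L ≤ ((2 * n : ℕ) : ℚ) ^ n := by
  have h1 : (2 : ℚ) ^ L * G L ^ 2 ≤ G (2 * L + 1) := by exact_mod_cast G_ratio L
  have h2 : (G n : ℚ) ≤ ((2 * n : ℕ) : ℚ) ^ n := by exact_mod_cast G_le n
  have h3 : (0 : ℚ) < G (2 * L + 1) := by exact_mod_cast G_pos _
  rw [rr, ← mul_div_assoc, div_le_iff₀ h3]
  calc (2 : ℚ) ^ L * (G n * G L ^ 2) = G n * (2 ^ L * G L ^ 2) := by ring
    _ ≤ _ := by gcongr

theorem H_bound (x : List Bool) {y : ℤ} (hy : |y| ≤ 2 * (Kb x * Kb x) + 1) :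
    |H (Kb x) y| ≤ 2 ^ (ub x + (3 * ub x + 4) * Kb x) := by
  have h0 := Kb_ge x
  have h1 : (100 : ℤ) ≤ Kb x := by exact_mod_cast Kb_100 x
  have h := abs_H_le (Kb x) (4 * (Kb x * Kb x)) y (Kb_pos x) (by push_cast; nlinarith)
  refine h.trans (le_of_eq ?_)
  have e : (Kb x : ℤ) = 2 ^ ub x := by rw [Kb]; push_cast; rfl
  rw [pow_add, pow_mul]
  congr 1
  congr 1
  push_cast
  rw [e]; ring

theorem tiny {x : List Bool} (h : (parseLines (fstP x)).length ≤ x.length) (σ I : ℕ) {s : ℕ}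
    (q : ℕ) (hs : s ≤ Kb x) :
    |((((2 ^ s / q : ℕ) : ℤ) * (2 * MZ x σ + 1) : ℤ) : ℚ) * cc (Kb x) (4 * Kb x) (Kb x * Kb x) *
      rr (4 * Kb x) (Kb x * Kb x) / 2 ^ I| ≤ 1 / 2 ^ (bb x + 11) := by
  have h0 := Kb_ge x
  have h1 : (100 : ℤ) ≤ Kb x := by exact_mod_cast Kb_100 x
  have a1 : |((2 ^ s / q : ℕ) : ℤ) * (2 * MZ x σ + 1)| ≤ 2 ^ (Kb x + Kb x) := by
    rw [abs_mul, Nat.abs_cast, pow_add]
    have b1 : ((2 ^ s / q : ℕ) : ℤ) ≤ 2 ^ Kb x := by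
      exact_mod_cast (Nat.div_le_self _ _).trans (Nat.pow_le_pow_right (by norm_num) hs)
    have b2 : |2 * MZ x σ + 1| ≤ 2 ^ Kb x := by
      have b3 := MZ_bound h σ
      have b4 : (2 : ℤ) ^ (2 ^ x.length + 2) ≤ 2 ^ Kb x := by
        refine pow_le_pow_right₀ (by norm_num) ?_
        have : 0 < 2 ^ x.length := by positivity
        rw [Kb_eq]; omega
      have b5 : (1 : ℤ) ≤ 2 ^ 2 ^ x.length := one_le_pow₀ (by norm_num)
      rw [pow_add] at b4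
      rw [abs_le] at b3 ⊢
      constructor <;> linarith
    gcongr
  have a2 : |cc (Kb x) (4 * Kb x) (Kb x * Kb x)| ≤ (2 ^ (ub x + (3 * ub x + 4) * Kb x)) ^ 4 := by
    have b1 := H_bound x (y := ((2 * (Kb x * Kb x) + 1 : ℕ) : ℤ)) (by rw [Nat.abs_cast]; simp)
    have b2 := H_bound x (y := -((Kb x * Kb x : ℕ) : ℤ)) (by
      rw [abs_neg, Nat.abs_cast]; push_cast; nlinarith)
    have b3 := H_bound x (y := -((4 * Kb x : ℕ) : ℤ)) (by
      rw [abs_neg, Nat.abs_cast]; push_cast; nlinarith)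
    rw [cc, abs_mul, abs_mul, abs_mul]
    calc _ ≤ (2 : ℤ) ^ (ub x + (3 * ub x + 4) * Kb x) * 2 ^ (ub x + (3 * ub x + 4) * Kb x) *
          2 ^ (ub x + (3 * ub x + 4) * Kb x) * 2 ^ (ub x + (3 * ub x + 4) * Kb x) := by gcongr
      _ = _ := by ring
  have a3 := rr_le (4 * Kb x) (Kb x * Kb x)
  have e : ((2 * (4 * Kb x) : ℕ) : ℚ) = 2 ^ (ub x + 3) := by rw [Kb]; push_cast; ring
  rw [e, ← pow_mul] at a3
  have a4 := rr_pos (4 * Kb x) (Kb x * Kb x)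
  have a1' : |((((2 ^ s / q : ℕ) : ℤ) * (2 * MZ x σ + 1) : ℤ) : ℚ)| ≤ 2 ^ (Kb x + Kb x) := by
    exact_mod_cast a1
  have a2' : |(cc (Kb x) (4 * Kb x) (Kb x * Kb x) : ℚ)| ≤
      (2 ^ (ub x + (3 * ub x + 4) * Kb x)) ^ 4 := by exact_mod_cast a2
  have a5 : Kb x + Kb x + (ub x + (3 * ub x + 4) * Kb x) * 4 + (ub x + 3) * (4 * Kb x) +
      (bb x + 11) ≤ Kb x * Kb x := by
    have h7 : bb x = 24 * (ub x + 2) ^ 2 + 114 * (ub x + 2) + 135 := by
      rw [← tt_eq]; unfold bb mm ww; ring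
    have h8 := ub_ge x
    have h9 : 4 * ub x + bb x + 11 ≤ Kb x := by nlinarith
    have h10 : 16 * ub x + 31 ≤ Kb x := by nlinarith
    have h11 := Nat.mul_le_mul_left (Kb x) h10
    nlinarith
  have a6 : (2 : ℚ) ^ (Kb x + Kb x) * (2 ^ (ub x + (3 * ub x + 4) * Kb x)) ^ 4 *
      2 ^ ((ub x + 3) * (4 * Kb x)) * 2 ^ (bb x + 11) ≤ 2 ^ (Kb x * Kb x) := by
    rw [← pow_mul, ← pow_add, ← pow_add, ← pow_add]
    exact pow_le_pow_right₀ (by norm_num) a5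
  rw [abs_div, abs_mul, abs_mul, abs_of_nonneg a4, abs_of_pos (show (0 : ℚ) < 2 ^ I by positivity)]
  refine (div_le_self (by positivity) (one_le_pow₀ (by norm_num))).trans ?_
  rw [le_div_iff₀ (by positivity)]
  refine le_of_mul_le_mul_left ?_ (show (0 : ℚ) < 2 ^ (Kb x * Kb x) by positivity)
  rw [mul_one]
  refine le_trans ?_ a6
  generalize |((((2 ^ s / q : ℕ) : ℤ) * (2 * MZ x σ + 1) : ℤ) : ℚ)| = u at *
  have a7 := abs_nonneg (cc (Kb x) (4 * Kb x) (Kb x * Kb x) : ℚ)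
  generalize |(cc (Kb x) (4 * Kb x) (Kb x * Kb x) : ℚ)| = v at *
  calc (2 : ℚ) ^ (Kb x * Kb x) * (u * v * rr (4 * Kb x) (Kb x * Kb x) * 2 ^ (bb x + 11))
      = u * v * (2 ^ (Kb x * Kb x) * rr (4 * Kb x) (Kb x * Kb x)) * 2 ^ (bb x + 11) := by ring
    _ ≤ _ := by gcongr

theorem Phi_approx {x : List Bool} (h : (parseLines (fstP x)).length ≤ x.length) {r : ℕ}
    (hg : Good1 x r) (σ : ℕ) {I s q : ℕ} (hI : 2 * I ≤ Kb x) (hs : s ≤ Kb x) (hq : 0 < q) :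
    ∃ c : ℤ, |Phi x r σ I s q - c - ((2 ^ s / q : ℕ) : ℚ) * ((2 * MZ x σ + 1) / 2 ^ I)| ≤
      1 / 2 ^ (bb x + 11) := by
  have h0 := Kb_ge x
  have h1 := Kb_100 x
  have h9 : 9 * (4 * (Kb x * Kb x) + 1) < (2 * (4 * Kb x)) ^ 2 := by nlinarith
  have ht := tiny h σ I q hs
  obtain ⟨k, hk⟩ : ∃ k, Kb x = k + 1 := ⟨Kb x - 1, by omega⟩
  obtain ⟨c, hc⟩ := two_frac k (4 * Kb x) (Kb x * Kb x) (WW x) I ⟨2 * Kb x, by ring⟩ (by omega) h9
    (by rw [WW_Kb]; nlinarith) (((2 ^ s / q : ℕ) : ℤ) * (2 * MZ x σ + 1))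
    (fun j p => zres p (Kb x) (4 * Kb x) (Kb x * Kb x) j I (beta x σ s q p))
    (fun j hj p hp hn hd => by
      have : Fact p.Prime := ⟨hp⟩
      rw [← hk]
      exact zres_cast (beta_cast x σ s hq hp) (by omega) hj h9 hn hd)
  rw [← hk] at hc
  have e : Phi x r σ I s q = ∑ j ∈ range (Kb x * Kb x + 1), ∑ p ∈ range (WW x),
      if p.Prime ∧ 2 * (4 * Kb x) ≤ p ∧ p ∣ 2 * (Kb x * Kb x) + 1 + 2 * j then
        (zres p (Kb x) (4 * Kb x) (Kb x * Kb x) j I (beta x σ s q p) : ℚ) / p else 0 := by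
    refine sum_congr rfl fun j _ => sum_congr rfl fun p hp => ?_
    have hL := LL_succ x
    rw [two_pow_tt] at hL
    have hok : okp x r j p = true ↔
        p.Prime ∧ 2 * (4 * Kb x) ≤ p ∧ p ∣ 2 * (Kb x * Kb x) + 1 + 2 * j := by
      simp only [okp, Bool.and_eq_true, Nat.ble_eq, beq_iff_eq, and_assoc,
        Nat.dvd_iff_mod_eq_zero]
      constructor
      · rintro ⟨g1, g2, g3⟩
        exact ⟨(hg p (by omega) (mem_range.1 hp)).1 g1, g2, g3⟩
      · rintro ⟨g1, g2, g3⟩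
        exact ⟨(hg p (by omega) (mem_range.1 hp)).2 g1, g2, g3⟩
    by_cases g : okp x r j p = true
    · rw [if_pos (hok.1 g), g, cond_true, Nat.cast_one, mul_one_div]
    · rw [if_neg fun g' => g (hok.2 g'), Bool.eq_false_iff.2 g, cond_false]
  refine ⟨c, ?_⟩
  rw [e, hc, ← abs_neg]
  refine le_trans (le_of_eq ?_) ht
  congr 1
  rw [Int.cast_mul, Int.cast_natCast]
  push_cast
  ring

end Pool.Agent.P.MP_d7de43_lc.Bit
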