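import Pool.Agent.P.MP_d7de43_lc.Approx

/-!
Exponentially long sums of polynomial-time fractions, and their approximation with a PP oracle.
-/

namespace Pool.Agent.P.MP_d7de43_lc.Bit

open Pool.Agent.Lib.Helper47 Finset

section
variable {α β : Type} [Enc α] [Enc β]

/-- exponentially long sums of polynomial-time fractions -/
def SQ (F : α → ℚ) : Prop :=
  ∃ (f d : α × ℕ → ℕ) (B : α → ℕ), PT f ∧ PT d ∧ PT B ∧
    ∀ a, F a = ∑ w ∈ range (B a), (f (a, w) : ℚ) / d (a, w)

theorem SQ.of_eq {F F' : α → ℚ} (h : SQ F) (e : ∀ a, F a = F' a) : SQ F' :=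
  (funext e : F = F') ▸ h

theorem SQ.div {f d : α → ℕ} (hf : PT f) (hd : PT d) : SQ fun a => (f a : ℚ) / d a :=
  ⟨fun x => f x.1, fun x => d x.1, fun _ => 1, by fun_prop, by fun_prop, by fun_prop,
    fun a => by simp⟩

theorem SQ.comp {F : β → ℚ} {h : α → β} (hF : SQ F) (hh : PT h) : SQ fun a => F (h a) := by
  obtain ⟨f, d, B, hf, hd, hB, e⟩ := hF
  exact ⟨fun x => f (h x.1, x.2), fun x => d (h x.1, x.2), fun a => B (h a), by fun_prop,
    by fun_prop, by fun_prop, fun a => e (h a)⟩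

theorem SQ.mul {F F' : α → ℚ} (h : SQ F) (h' : SQ F') : SQ fun a => F a * F' a := by
  obtain ⟨f, d, B, hf, hd, hB, e⟩ := h
  obtain ⟨f', d', B', hf', hd', hB', e'⟩ := h'
  refine ⟨fun x => f (x.1, x.2 % B x.1) * f' (x.1, x.2 / B x.1),
    fun x => d (x.1, x.2 % B x.1) * d' (x.1, x.2 / B x.1), fun a => B a * B' a, by fun_prop,
    by fun_prop, by fun_prop, fun a => ?_⟩
  show F a * F' a = _
  rw [e, e', sum_mul_sum, ← sum_range_mul]
  refine sum_congr rfl fun w _ => ?_
  push_cast
  rw [div_mul_div_comm]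

theorem SQ.cond {c : α → Bool} {F F' : α → ℚ} (hc : PT c) (h : SQ F) (h' : SQ F') :
    SQ fun a => bif c a then F a else F' a := by
  obtain ⟨f, d, B, hf, hd, hB, e⟩ := h
  obtain ⟨f', d', B', hf', hd', hB', e'⟩ := h'
  refine ⟨fun x => bif c x.1 then f x else f' x, fun x => bif c x.1 then d x else d' x,
    fun a => bif c a then B a else B' a, by fun_prop, by fun_prop, by fun_prop, fun a => ?_⟩
  cases hca : c a <;> simp [hca, e, e']

theorem exists_bound {B : α × ℕ → ℕ} {N : α → ℕ} (hB : PT B) (hN : PT N) :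
    ∃ e : α → ℕ, PT e ∧ PS e ∧ ∀ a j, j ≤ N a → B (a, j) < 2 ^ e a := by
  obtain ⟨p, hp⟩ := hB.size_le
  have h1 := pt_size (α := α)
  have h2 : PT fun a => size (N a) := (pt_size (α := ℕ)).comp hN
  refine ⟨fun a => p.eval (size a + 4 * size (N a) + 1), pt_eval p (by fun_prop),
    ((PB.self.add ((PB.const 4).mul hN.size_le)).add (PB.const 1)).eval p, fun a j hj => ?_⟩
  refine (lt_two_pow_size _).trans_le (Nat.pow_le_pow_right (by norm_num) ((hp (a, j)).trans
    (eval_mono p ?_)))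
  have := size_nat_mono hj
  simp only [size_pair]
  omega

theorem SQ.sum {F : α → ℕ → ℚ} {N : α → ℕ} (h : SQ fun x : α × ℕ => F x.1 x.2) (hN : PT N) :
    SQ fun a => ∑ j ∈ range (N a), F a j := by
  obtain ⟨f, d, B, hf, hd, hB, e⟩ := h
  obtain ⟨m, hm, hm', hb⟩ := exists_bound hB hN
  have hM : PT fun a => 2 ^ m a := PT.pow (PT.const 2) hm hm'
  refine ⟨fun x => bif Nat.blt (x.2 / N x.1) (B (x.1, x.2 % N x.1)) then
      f ((x.1, x.2 % N x.1), x.2 / N x.1) else 0,
    fun x => d ((x.1, x.2 % N x.1), x.2 / N x.1), fun a => N a * 2 ^ m a, by fun_prop,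
    by fun_prop, by fun_prop, fun a => ?_⟩
  show _ = ∑ w ∈ range (N a * 2 ^ m a), _
  rw [sum_range_mul (N a) (2 ^ m a) (fun j w => (((bif Nat.blt w (B (a, j)) then f ((a, j), w)
    else 0 : ℕ) : ℚ)) / d ((a, j), w))]
  refine sum_congr rfl fun j hj => ?_
  have e1 := e (a, j)
  simp only at e1
  rw [e1, ← nt_ite_sum (2 ^ m a) _ (hb a j (mem_range.1 hj).le).le]
  refine sum_congr rfl fun w _ => ?_
  by_cases hw : w < B (a, j)
  · have : Nat.blt w (B (a, j)) = true := by simpa [Nat.blt_eq] using hw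
    simp [hw, this]
  · have : Nat.blt w (B (a, j)) = false := by rw [Bool.eq_false_iff]; simpa [Nat.blt_eq] using hw
    simp [hw, this]

/-- exponentially long sums of polynomial-time numbers -/
def SN (F : α → ℕ) : Prop := SQ fun a => (F a : ℚ)

theorem SN.pt {f : α → ℕ} (hf : PT f) : SN f :=
  (SQ.div hf (PT.const 1)).of_eq fun _ => by simp

theorem SN.mul {F F' : α → ℕ} (h : SN F) (h' : SN F') : SN fun a => F a * F' a :=
  (SQ.mul h h').of_eq fun _ => by simp

theorem SN.cond {c : α → Bool} {F F' : α → ℕ} (hc : PT c) (h : SN F) (h' : SN F') :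
    SN fun a => bif c a then F a else F' a :=
  (SQ.cond hc h h').of_eq fun a => by
    show (bif c a then (F a : ℚ) else F' a) = ((bif c a then F a else F' a : ℕ) : ℚ)
    cases c a <;> rfl

theorem SN.sum {F : α → ℕ → ℕ} {N : α → ℕ} (h : SN fun x : α × ℕ => F x.1 x.2) (hN : PT N) :
    SN fun a => ∑ j ∈ range (N a), F a j :=
  (SQ.sum (F := fun a j => (F a j : ℚ)) h hN).of_eq fun _ => by simp

theorem floor_approx' (E p u : ℕ) (hE : 0 < E) :
    |((E * u / p : ℕ) : ℚ) / E - (u : ℚ) / p| ≤ 1 / E := by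
  rcases Nat.eq_zero_or_pos p with rfl | hp
  · simp
  · exact floor_approx E p u hE hp

theorem SQ.approx {F : α → ℚ} {D : α → ℕ} (h : SQ F) (hD : PT D) (hD0 : ∀ a, 0 < D a) :
    ∃ (P : α × ℕ → Bool) (M E : α → ℕ), PT P ∧ PT M ∧ PS M ∧ PT E ∧ ∀ a, 0 < E a ∧
      |(((range (2 ^ M a)).filter (fun n => P (a, n) = true)).card : ℚ) / E a - F a| ≤ 1 / D a := by
  obtain ⟨f, d, B, hf, hd, hB, e⟩ := h
  let E : α → ℕ := fun a => (B a + 1) * D a
  have hE : PT E := by fun_prop
  let g : α × ℕ → ℕ := fun x => E x.1 * f x / d x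
  have hg : PT g := by fun_prop
  obtain ⟨m, hm, hm', hb⟩ := exists_bound (B := fun x => B x.1 + g x) (by fun_prop) hB
  have hM : PT fun x : α × ℕ => 2 ^ m x.1 := (PT.pow (PT.const 2) hm hm').comp (PT.fst PT.id)
  refine ⟨fun x => Nat.blt (x.2 % 2 ^ m x.1) (B x.1) &&
      Nat.blt (x.2 / 2 ^ m x.1) (g (x.1, x.2 % 2 ^ m x.1)), fun a => m a + m a, E, by fun_prop,
    by fun_prop, hm'.add hm', hE, fun a => ?_⟩
  have hE0 : 0 < E a := Nat.mul_pos (Nat.succ_pos _) (hD0 a)
  refine ⟨hE0, ?_⟩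
  have h1 : ((range (2 ^ (m a + m a))).filter (fun n => (Nat.blt (n % 2 ^ m a) (B a) &&
      Nat.blt (n / 2 ^ m a) (g (a, n % 2 ^ m a))) = true)).card = ∑ w ∈ range (B a), g (a, w) := by
    rw [card_filter, pow_add, sum_range_mul (2 ^ m a) (2 ^ m a) (fun w z =>
      if (Nat.blt w (B a) && Nat.blt z (g (a, w))) = true then 1 else 0)]
    have hB' : B a ≤ 2 ^ m a := by have := hb a 0 (Nat.zero_le _); simp only at this; omega
    rw [← sum_subset (range_subset_range.2 hB')]
    · refine sum_congr rfl fun w hw => ?_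
      have hw' := mem_range.1 hw
      have h2 := hb a w hw'.le
      simp only at h2
      rw [← card_filter]
      conv_rhs => rw [← card_range (g (a, w))]
      congr 1
      ext z
      simp only [mem_filter, mem_range, Bool.and_eq_true, Nat.blt_eq]
      omega
    · intro w _ hw
      refine sum_eq_zero fun z _ => if_neg ?_
      simp only [Bool.and_eq_true, Nat.blt_eq, mem_range] at hw ⊢
      omega
  rw [h1, e, Nat.cast_sum, sum_div]
  refine (sum1 (B a) _ _ _ fun w _ => floor_approx' (E a) _ _ hE0).trans ?_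
  have h2 : (0 : ℚ) < D a := by exact_mod_cast hD0 a
  simp only [E]
  push_cast
  rw [mul_one_div, div_le_div_iff₀ (by positivity) h2]
  nlinarith

end

/-- the test used by the majority machine -/
def vT (P : List Bool × ℕ → Bool) (M : List Bool → ℕ) (z : List Bool) (τ D n : ℕ) : Bool :=
  bif Nat.ble D n then Nat.blt (n - D) (2 ^ M z) && P (z, n - D) else Nat.ble (n + τ) D

theorem card_vT (P : List Bool × ℕ → Bool) (M : List Bool → ℕ) (z : List Bool) (τ D : ℕ)
    (hD : 2 ^ M z ≤ D) (h1 : 1 ≤ τ) (h2 : τ ≤ D) :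
    ((range (D + D)).filter (fun n => vT P M z τ D n = true)).card + τ =
      ((range (2 ^ M z)).filter (fun n => P (z, n) = true)).card + D + 1 := by
  rw [card_filter, sum_range_add]
  have e1 : ∑ n ∈ range D, (if vT P M z τ D n = true then 1 else 0) = D + 1 - τ := by
    rw [← card_filter, ← card_range (D + 1 - τ)]
    refine congrArg card ?_
    ext n
    rw [mem_filter, mem_range, mem_range, vT]
    constructor
    · rintro ⟨h3, h4⟩
      have : Nat.ble D n = false := by rw [Bool.eq_false_iff]; simp; omega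
      simp [this] at h4; omega
    · intro h3
      have : Nat.ble D n = false := by rw [Bool.eq_false_iff]; simp; omega
      simp [this]; omega
  have e2 : ∑ n ∈ range D, (if vT P M z τ D (D + n) = true then 1 else 0) =
      ((range (2 ^ M z)).filter (fun n => P (z, n) = true)).card := by
    rw [← card_filter]
    refine congrArg card ?_
    ext n
    have : Nat.ble D (D + n) = true := by simp
    simp only [mem_filter, mem_range, vT, this, cond_true, Nat.add_sub_cancel_left,
      Bool.and_eq_true, Nat.blt_eq]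
    constructor
    · rintro ⟨-, h⟩; exact h
    · rintro ⟨h3, h4⟩; exact ⟨by omega, h3, h4⟩
  rw [e1, e2]; omega

open Classical in
theorem count_oracle {P : List Bool × ℕ → Bool} {M : List Bool → ℕ} (hP : PT P) (hM : PT M)
    (hM' : PS M) : ∃ A, InPP A ∧ OPT (fun y => decide (y ∈ A))
      (fun z => ((range (2 ^ M z)).filter (fun n => P (z, n) = true)).card) := by
  obtain ⟨p, hp⟩ := exists_poly_length (g := fun y => M (fstP y) + 2)
    ((ps_comp hM' (pt_fstP PT.id)).add (PB.const 2))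
  let V : List Bool → List Bool := fun v => [vT P M (fstP (fstP v)) (msb (sndP (fstP v)) 0)
    (2 ^ ((sndP v).length - 1)) (msb (sndP v) 0)]
  have hV : PT V := by
    have h : PT fun v : List Bool => 2 ^ ((sndP v).length - 1) :=
      PT.pow (PT.const 2) (by fun_prop)
        ((ps_length (l := fun v => sndP v) (by fun_prop)).mono fun _ => Nat.sub_le _ _)
    have h2 : PT fun v : List Bool => 2 ^ M (fstP (fstP v)) :=
      (PT.pow (PT.const 2) hM hM').comp (g := fun v => fstP (fstP v)) (by fun_prop)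
    simp only [V, vT]
    fun_prop
  refine ⟨{y | 2 ^ p.eval y.length < 2 * cnt (p.eval y.length) (fun w => V (pair y w) = [true])},
    ⟨V, p, inFP_of_pt hV, fun _ => Iff.rfl⟩, ?_⟩
  have hq : ∀ z τ, 1 ≤ τ → τ < 2 ^ (M z + 1) →
      ((2 ^ p.eval (pair z τ.bits.reverse).length < 2 * cnt (p.eval (pair z τ.bits.reverse).length)
        (fun w => V (pair (pair z τ.bits.reverse) w) = [true])) ↔
        τ ≤ ((range (2 ^ M z)).filter (fun n => P (z, n) = true)).card) := by
    intro z τ h1 h2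
    have h3 := hp (pair z τ.bits.reverse)
    rw [fstP_pair] at h3
    generalize p.eval (pair z τ.bits.reverse).length = Q at h3
    obtain ⟨Q, rfl⟩ : ∃ Q', Q = Q' + 1 := ⟨Q - 1, by omega⟩
    have h4 : 2 ^ (M z + 1) ≤ 2 ^ Q := Nat.pow_le_pow_right (by norm_num) (by omega)
    rw [cnt_msb (Q + 1) _ (fun n => vT P M z τ (2 ^ Q) n = true) (fun w hw => by
      simp [V, hw, msb_reverse_bits])]
    have h5 := card_vT P M z τ (2 ^ Q) (by rw [pow_succ] at h4; omega) h1 (by omega)
    rw [pow_succ, mul_two]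
    omega
  have hb : PS fun z => M z + 1 := hM'.add (PB.const 1)
  have hc : PT fun a : List Bool × List Bool => cand (M a.1 + 1) a.2 :=
    pt_cand (by fun_prop) (ps_fst hb) (by fun_prop)
  refine ⟨fun a => pair a.1 (cand (M a.1 + 1) a.2).bits.reverse, fun a => msb a.2 0,
    fun z => M z + 1, by fun_prop, by fun_prop, by fun_prop, hb, fun z => ?_⟩
  refine (greedy_count _ (M z + 1) (((card_filter_le _ _).trans (card_range _).le).trans_lt
    (Nat.pow_lt_pow_right (by norm_num) (by omega))) _ (fun l hl => ?_)).symm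
  simp only [Set.mem_ofPred_eq, hq _ _ (cand_pos _ _) (cand_lt _ _ hl)]

open Classical in
theorem SQ.oracle {F : List Bool → ℚ} {D : List Bool → ℕ} (h : SQ F) (hD : PT D)
    (hD0 : ∀ a, 0 < D a) : ∃ A, InPP A ∧ ∃ C E : List Bool → ℕ,
      OPT (fun y => decide (y ∈ A)) C ∧ PT E ∧
        ∀ z, 0 < E z ∧ |(C z : ℚ) / E z - F z| ≤ 1 / D z := by
  obtain ⟨P, M, E, hP, hM, hM', hE, e⟩ := h.approx hD hD0
  obtain ⟨A, hA, hC⟩ := count_oracle hP hM hM'
  exact ⟨A, hA, _, E, hC, hE, e⟩

end Pool.Agent.P.MP_d7de43_lc.Bit
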