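import Pool.Agent.P.MP_d7de43_lc.Bit.PF
import Pool.Agent.P.MP_d7de43_lc.Bit.SQ

/-!
Additive formulas for residues modulo a prime.
-/

namespace Pool.Agent.P.MP_d7de43_lc.Bit

open Pool.Agent.Lib.Helper47 Finset

/-- binomial coefficients of numbers below `p` -/
def bres (p y k : ℕ) : ℕ :=
  bif k == 0 then 1 else bif k + 1 == p then (bif y == k then 1 else 0) else
    ∑ ω ∈ range p, (p - 1) * pw ω (p - 1 - k) p * pw (ω + 1) y p

/-- binomial coefficients of numbers below `p ^ 2` -/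
def bin2 (p a b : ℕ) : ℕ := bres p (a % p) (b % p) * bres p (a / p) (b / p)

/-- factorials -/
def fres (p j : ℕ) : ℕ := ∑ i ∈ range (j + 1), pw (p - 1) (j - i) p * pw i j p * bres p j i

/-- products of odd numbers -/
def gres (p j : ℕ) : ℕ := pw ((p + 1) / 2) j p * bres p (2 * j) j * fres p j

/-- coefficients of the binomial series -/
def ares (p k : ℕ) : ℕ := ∑ j ∈ range (k + 1), pw (p - 1) (k - j) p * bres p k j * gres p j

/-- the truncated binomial series -/
def hres (p K y : ℕ) : ℕ := ∑ k ∈ range K, ares p k * bres p y k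

/-- the numerators -/
def zres (p K n L j I β : ℕ) : ℕ :=
  (p - 1) * β * pw ((p + 1) / 2) I p * pw ((2 * L + 1 + 2 * j) / p) (p - 2) p *
    pw (p - 1) (L + j) p *
    (hres p K ((2 * L + 1) % p) * hres p K ((p - 1) * L % p) * hres p K ((p - 1) * L % p) *
      hres p K ((p - 1) * n % p)) * gres p n * (bin2 p (L + j) j * bin2 p L j)

section
variable {p : ℕ} [hp : Fact p.Prime]

theorem cast_pred : ((p - 1 : ℕ) : ZMod p) = -1 := by
  rw [Nat.cast_sub hp.out.one_le]; simp

theorem bres_cast {y k : ℕ} (hy : y < p) (hk : k < p) :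
    ((bres p y k : ℕ) : ZMod p) = y.choose k := by
  have hp0 := hp.out.pos
  rw [bres]
  by_cases h0 : k = 0
  · simp [h0]
  have e0 : (k == 0) = false := by simpa using h0
  by_cases h1 : k + 1 = p
  · have e1 : (k + 1 == p) = true := by simpa using h1
    by_cases h2 : y = k
    · simp [e0, e1, h2]
    · have e2 : (y == k) = false := by simpa using h2
      simp [e0, e1, e2, Nat.choose_eq_zero_of_lt (show y < k by omega)]
  have e1 : (k + 1 == p) = false := by simpa using h1
  simp only [e0, e1, cond_false, Nat.cast_sum, Nat.cast_mul, pw_cast hp0, cast_pred, Nat.cast_add,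
    Nat.cast_one]
  rw [nt_range_sum p (fun w => -1 * w ^ (p - 1 - k) * (w + 1) ^ y)]
  have h2 : ∀ w : ZMod p, -1 * w ^ (p - 1 - k) * (w + 1) ^ y =
      ∑ i ∈ range (y + 1), -(y.choose i : ZMod p) * w ^ (p - 1 - k + i) := by
    intro w
    rw [add_pow, mul_sum]
    refine sum_congr rfl fun i _ => ?_
    rw [pow_add]; ring
  simp_rw [h2]
  rw [sum_comm]
  simp_rw [← mul_sum]
  rw [sum_eq_single k]
  · rw [nt_sum_pow p _ (by omega), if_pos]
    · ring
    · rw [show p - 1 - k + k = p - 1 by omega]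
  · intro i hi hik
    have hi' := mem_range.1 hi
    rw [nt_sum_pow p _ (by omega), if_neg, mul_zero]
    rintro ⟨c, hc⟩
    rcases Nat.lt_or_ge c 2 with h3 | h3
    · interval_cases c <;> omega
    · have : (p - 1) * 2 ≤ (p - 1) * c := Nat.mul_le_mul_left _ h3
      omega
  · intro h
    rw [Nat.choose_eq_zero_of_lt (by rw [mem_range] at h; omega)]
    simp

theorem bin2_cast {a b : ℕ} (ha : a < p * p) (hb : b < p * p) :
    ((bin2 p a b : ℕ) : ZMod p) = a.choose b := by
  have hp0 := hp.out.pos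
  rw [bin2, Nat.cast_mul, bres_cast (Nat.mod_lt _ hp0) (Nat.mod_lt _ hp0),
    bres_cast (Nat.div_lt_of_lt_mul ha) (Nat.div_lt_of_lt_mul hb), ← Nat.cast_mul]
  exact ((ZMod.natCast_eq_natCast_iff _ _ _).2
    Choose.choose_modEq_choose_mod_mul_choose_div_nat).symm

theorem fres_cast {j : ℕ} (hj : j < p) : ((fres p j : ℕ) : ZMod p) = j.factorial := by
  have hp0 := hp.out.pos
  rw [fres, Nat.cast_sum, ← nt_fact (ZMod p) j]
  refine sum_congr rfl fun i hi => ?_
  have hi' := mem_range.1 hi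
  rw [Nat.cast_mul, Nat.cast_mul, bres_cast hj (by omega), pw_cast hp0, pw_cast hp0, cast_pred]
  ring

theorem half_mul (ho : Odd p) : (((p + 1) / 2 : ℕ) : ZMod p) * 2 = 1 := by
  have h5 : (p + 1) / 2 * 2 = p + 1 := by obtain ⟨a, ha⟩ := ho; omega
  have := congrArg (fun z : ℕ => (z : ZMod p)) h5
  simpa using this

theorem gres_cast (ho : Odd p) {j : ℕ} (hj : 2 * j < p) : ((gres p j : ℕ) : ZMod p) = G j := by
  have hp0 := hp.out.pos
  have h := congrArg (fun z : ℕ => (z : ZMod p)) (G_mul' j)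
  simp only [Nat.cast_mul, Nat.cast_pow, Nat.cast_ofNat] at h
  rw [gres, Nat.cast_mul, Nat.cast_mul, bres_cast hj (by omega), fres_cast (by omega),
    pw_cast hp0, mul_assoc, ← h, mul_left_comm, ← mul_pow, half_mul ho, one_pow, mul_one]

theorem ares_cast (ho : Odd p) {k : ℕ} (hk : 2 * k < p) : ((ares p k : ℕ) : ZMod p) = ma k := by
  have hp0 := hp.out.pos
  have h := congrArg (fun z : ℤ => (z : ZMod p)) (ma_eq k)
  simp only [Int.cast_natCast, Int.cast_sum, Int.cast_mul, Int.cast_pow, Int.cast_neg,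
    Int.cast_one] at h
  rw [h, ares, Nat.cast_sum]
  refine sum_congr rfl fun j hj => ?_
  have hj' := mem_range.1 hj
  rw [Nat.cast_mul, Nat.cast_mul, bres_cast (by omega) (by omega), gres_cast ho (by omega),
    pw_cast hp0, cast_pred]

theorem choose_cast {Y : ℤ} {y k : ℕ} (h : (y : ZMod p) = Y) (hk : k < p) :
    ((Ring.choose Y k : ℤ) : ZMod p) = y.choose k := by
  have h1 := congrArg (fun z : ℤ => (z : ZMod p)) (fact_mul_choose Y k)
  have h2 := congrArg (fun z : ℤ => (z : ZMod p)) (fact_mul_choose y k)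
  rw [Ring.choose_natCast] at h2
  simp only [Int.cast_mul, Int.cast_natCast, Int.cast_prod, Int.cast_sub] at h1 h2
  rw [h, ← h1] at h2
  have h3 : (k.factorial : ZMod p) ≠ 0 := by
    rw [Ne, ZMod.natCast_eq_zero_iff, hp.out.dvd_factorial]
    omega
  exact (mul_left_cancel₀ h3 h2).symm

theorem hres_cast (ho : Odd p) {K y : ℕ} {Y : ℤ} (hK : 2 * K ≤ p) (hy : y < p)
    (h : (y : ZMod p) = Y) : ((hres p K y : ℕ) : ZMod p) = H K Y := by
  rw [hres, H, Nat.cast_sum, Int.cast_sum]
  refine sum_congr rfl fun k hk => ?_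
  have hk' := mem_range.1 hk
  rw [Nat.cast_mul, Int.cast_mul, ares_cast ho (by omega), bres_cast hy (by omega),
    choose_cast h (by omega), Int.cast_natCast]

theorem zres_cast {K n L j I β : ℕ} {A : ℤ} (hβ : (β : ZMod p) = A) (hK : K ≤ n) (hj : j ≤ L)
    (h9 : 9 * (4 * L + 1) < (2 * n) ^ 2) (hn : 2 * n ≤ p) (hd : p ∣ 2 * L + 1 + 2 * j) :
    ((zres p K n L j I β : ℕ) : ZMod p) =
      -(A : ZMod p) * (((p + 1) / 2 : ℕ) : ZMod p) ^ I * cc K n L * G n *
        (((2 * L + 1 + 2 * j) / p : ℕ) : ZMod p) ^ (p - 2) * R L j := by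
  have hp0 := hp.out.pos
  have ho : Odd p := Odd.of_dvd_nat ⟨L + j, by ring⟩ hd
  have hn' : 2 * n < p := by obtain ⟨a, ha⟩ := ho; omega
  have hpp : (2 * n) ^ 2 ≤ p * p := by rw [sq]; exact Nat.mul_le_mul hn hn
  have h1 := hres_cast ho (K := K) (Y := ((2 * L + 1 : ℕ) : ℤ)) (by omega)
    (Nat.mod_lt (2 * L + 1) hp0) (by rw [ZMod.natCast_mod, Int.cast_natCast])
  have h2 : ∀ m : ℕ, ((hres p K ((p - 1) * m % p) : ℕ) : ZMod p) = H K (-m) := fun m =>
    hres_cast ho (by omega) (Nat.mod_lt _ hp0) (by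
      rw [ZMod.natCast_mod, Nat.cast_mul, cast_pred]; simp)
  rw [zres, cc, R]
  simp only [Nat.cast_mul, Int.cast_mul, h1, h2, pw_cast hp0, cast_pred, hβ, gres_cast ho hn',
    bin2_cast (show L + j < p * p by omega) (show j < p * p by omega),
    bin2_cast (show L < p * p by omega) (show j < p * p by omega), Int.cast_pow, Int.cast_neg,
    Int.cast_one, Int.cast_natCast]
  ring

end

section
variable {α : Type} [Enc α] {p y k a b j K n L I β : α → ℕ}

theorem sn_bres (hp : PT p) (hy : PT y) (hk : PT k) : SN fun x => bres (p x) (y x) (k x) :=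
  SN.cond (by fun_prop) (SN.pt (by fun_prop)) (SN.cond (by fun_prop) (SN.pt (by fun_prop))
    (SN.sum (F := fun x ω => (p x - 1) * pw ω (p x - 1 - k x) (p x) * pw (ω + 1) (y x) (p x))
      (SN.pt (by fun_prop)) hp))

theorem sn_bin2 (hp : PT p) (ha : PT a) (hb : PT b) : SN fun x => bin2 (p x) (a x) (b x) :=
  (sn_bres hp (by fun_prop) (by fun_prop)).mul (sn_bres hp (by fun_prop) (by fun_prop))

theorem sn_fres (hp : PT p) (hj : PT j) : SN fun x => fres (p x) (j x) :=
  SN.sum (F := fun x i => pw (p x - 1) (j x - i) (p x) * pw i (j x) (p x) * bres (p x) (j x) i)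
    ((SN.pt (by fun_prop)).mul (sn_bres (by fun_prop) (by fun_prop) (by fun_prop))) (by fun_prop)

theorem sn_gres (hp : PT p) (hj : PT j) : SN fun x => gres (p x) (j x) :=
  ((SN.pt (by fun_prop)).mul (sn_bres hp (by fun_prop) hj)).mul (sn_fres hp hj)

theorem sn_ares (hp : PT p) (hk : PT k) : SN fun x => ares (p x) (k x) :=
  SN.sum (F := fun x j => pw (p x - 1) (k x - j) (p x) * bres (p x) (k x) j * gres (p x) j)
    (((SN.pt (by fun_prop)).mul (sn_bres (by fun_prop) (by fun_prop) (by fun_prop))).mul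
      (sn_gres (by fun_prop) (by fun_prop))) (by fun_prop)

theorem sn_hres (hp : PT p) (hK : PT K) (hy : PT y) : SN fun x => hres (p x) (K x) (y x) :=
  SN.sum (F := fun x k => ares (p x) k * bres (p x) (y x) k)
    ((sn_ares (by fun_prop) (by fun_prop)).mul
      (sn_bres (by fun_prop) (by fun_prop) (by fun_prop))) hK

theorem sn_zres (hp : PT p) (hK : PT K) (hn : PT n) (hL : PT L) (hj : PT j) (hI : PT I)
    (hβ : PT β) : SN fun x => zres (p x) (K x) (n x) (L x) (j x) (I x) (β x) :=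
  (((SN.pt (by fun_prop)).mul ((((sn_hres hp hK (by fun_prop)).mul
    (sn_hres hp hK (by fun_prop))).mul (sn_hres hp hK (by fun_prop))).mul
    (sn_hres hp hK (by fun_prop)))).mul (sn_gres hp hn)).mul
    ((sn_bin2 hp (by fun_prop) hj).mul (sn_bin2 hp hL hj))

end

end Pool.Agent.P.MP_d7de43_lc.Bit
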