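import Pool.Agent.P.MP_d7de43_lc.Bit.Alg
import Pool.Agent.P.MP_d7de43_lc.Bit.Defs

/-!
BitSLP is decided in bounded-error probabilistic polynomial time with a PP oracle.
-/

namespace Pool.Agent.P.MP_d7de43_lc.Bit

open Pool.Agent.Lib.Helper47 Finset

set_option maxHeartbeats 400000

attribute [local irreducible] tt LL WW ww HH mm RR bb qq dg NZ zres cc rr G H ub Kb MZ beta okp Phi
  call yy

/-- the position asked for -/
def idx (x : List Bool) : ℕ := msb (sndP x).reverse 0

/-- the input is well formed -/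
def valid2 (x : List Bool) : Bool := validStr (fstP x) && pair (fstP x) (idx x).bits == x

/-- first the sign, then the bit -/
def top (C E : List Bool → ℕ) (x : List Bool) (r : ℕ) (l : List Bool) : Bool :=
  call C E x r (l.getD 0 false).toNat (bif l.isEmpty then 2 ^ x.length + 1 else idx x)

/-- the decision on input `x` with random number `r` -/
def dec2 (C E : List Bool → ℕ) (x : List Bool) (r : ℕ) : Bool :=
  valid2 x && (loop (top C E x r) 2).getD 1 false

theorem opt_dec2 {A : List Bool → Bool} {C E : List Bool → ℕ} (hC : OPT A C) (hE : PT E) :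
    OPT A fun z : List Bool => dec2 C E (fstP z) (msb (sndP z) 0) := by
  have h0 : PT fun a : (List Bool × ℕ) × List Bool => 2 ^ a.1.1.length :=
    PT.pow (PT.const 2) (by fun_prop)
      (ps_length (l := fun a : (List Bool × ℕ) × List Bool => a.1.1) (by fun_prop))
  have h1 : OPT A fun a : (List Bool × ℕ) × List Bool => top C E a.1.1 a.1.2 a.2 :=
    (opt_call hC hE).pre (h := fun a : (List Bool × ℕ) × List Bool => (a.1.1, a.1.2,
      (a.2.getD 0 false).toNat, bif a.2.isEmpty then 2 ^ a.1.1.length + 1 else idx a.1.1))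
      (by unfold idx; fun_prop)
  have h2 := h1.loop (M := fun _ => 2) (by fun_prop) (PB.const 2)
  have h3 := h2.post (g := fun b => valid2 b.1.1 && b.2.getD 1 false)
    (by unfold valid2 idx; fun_prop)
  exact (h3.pre (h := fun z : List Bool => (fstP z, msb (sndP z) 0)) (by fun_prop)).of_eq
    (fun _ => rfl)

theorem mem_BitSLP (x : List Bool) : x ∈ BitSLP ↔
    valid2 x = true ∧ (NZ (parseLines (fstP x))).natAbs.testBit (idx x) = true := by
  constructor
  · rintro ⟨P, i, hP, rfl, h⟩
    have e : idx (pair (code P) i.bits) = i := by rw [idx, sndP_pair, msb_reverse_bits]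
    rw [valid2, e, fstP_pair, validStr, code_eq, parseLines_encLines, (okLines_lines P).2 hP, NZ,
      ← values_eq]
    simpa [lines] using h
  · rintro ⟨h1, h2⟩
    simp only [valid2, validStr, Bool.and_eq_true, beq_iff_eq] at h1
    obtain ⟨Q, hQ⟩ := exists_lines _ h1.1.2
    refine ⟨Q, idx x, (okLines_lines Q).1 (hQ ▸ h1.1.2), by rw [code_eq, hQ, h1.1.1, h1.2], ?_⟩
    rw [← hQ, NZ, ← values_eq] at h2
    simpa [lines] using h2

theorem len_of_valid {x : List Bool} (h : valid2 x = true) :
    (parseLines (fstP x)).length ≤ x.length := by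
  simp only [valid2, Bool.and_eq_true, beq_iff_eq] at h
  have h1 := length_le_of_valid h.1
  have h2 := congrArg List.length h.2
  rw [length_pair] at h2
  omega

theorem idx_le (x : List Bool) : idx x ≤ 2 ^ x.length + 1 := by
  have h1 := msb_lt_pow (sndP x).reverse
  have h2 : 2 ^ (sndP x).reverse.length ≤ 2 ^ x.length :=
    Nat.pow_le_pow_right (by norm_num) (by simp [sndP])
  rw [idx]; omega

/-- the numbers to be kept away from multiples of the random modulus -/
def xi (x : List Bool) (t s : ℕ) : ℚ :=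
  2 ^ s * yy (MZ x (t / 2)) (if t = 0 then 2 ^ x.length + 1 else idx x)

/-- the random modulus divides no nonzero integer close to one of these numbers -/
def Good3 (x : List Bool) (r : ℕ) : Prop :=
  ∀ t < 3, ∀ s < Kb x, ∀ y : ℤ, |y - xi x t s| ≤ 3 → (qq x r : ℤ) ∣ y → y = 0

theorem sign_bit {N : ℤ} {k : ℕ} (h : |N| ≤ 2 ^ k) : N / 2 ^ (k + 1) % 2 = 1 ↔ N < 0 := by
  have h0 : (0 : ℤ) < 2 ^ k := by positivity
  rw [abs_le] at h
  rw [pow_succ]
  by_cases hN : N < 0
  · have h1 : N / (2 ^ k * 2) = -1 := by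
      rw [Int.ediv_eq_iff_of_pos (by omega)]; omega
    simp [h1, hN]
  · rw [Int.ediv_eq_zero_of_lt (by omega) (by omega)]
    simp [hN]

theorem testBit_iff (n i : ℕ) : n.testBit i = true ↔ (n : ℤ) / 2 ^ i % 2 = 1 := by
  rw [Nat.testBit_eq_decide_div_mod_eq, decide_eq_true_eq]
  norm_cast

theorem dec2_correct {C E : List Bool → ℕ}
    (hA : ∀ z, 0 < E z ∧ |(C z : ℚ) / E z - PhiZ z| ≤ 1 / ((2 ^ (bb (fstP z) + 11) : ℕ) : ℚ))
    (x : List Bool) (r : ℕ) (hg : Good1 x r) (hg3 : Good3 x r) :
    dec2 C E x r = true ↔ x ∈ BitSLP := by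
  rw [mem_BitSLP, dec2, Bool.and_eq_true]
  refine and_congr_right (fun hx => ?_)
  have hl := len_of_valid hx
  have e : (loop (top C E x r) 2).getD 1 false =
      call C E x r (call C E x r 0 (2 ^ x.length + 1)).toNat (idx x) := by
    simp [loop_succ, top]
  have h0 := call_correct hA hl hg 0 le_rfl (by simpa [xi] using hg3 0 (by norm_num))
  have h1 := call_correct hA hl hg 0 (idx_le x) (by simpa [xi] using hg3 1 (by norm_num))
  have h2 := call_correct hA hl hg 1 (idx_le x) (by simpa [xi] using hg3 2 (by norm_num))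
  rw [sign_bit (MZ_bound hl 0)] at h0
  simp only [MZ, pow_zero, one_mul, pow_one, neg_mul] at h0 h1 h2
  rw [e, testBit_iff, Int.natCast_natAbs]
  cases hc : call C E x r 0 (2 ^ x.length + 1)
  · rw [hc] at h0
    rw [abs_of_nonneg (not_lt.1 fun h => by simpa using h0.2 h)]
    exact h1
  · rw [abs_of_neg (h0.1 hc)]
    exact h2

open Classical in
theorem card_bad3 (x : List Bool) :
    4 ^ mm x * ((range (HH x ^ mm x)).filter (fun r => ¬ Good3 x r)).card ≤
      WW x * 7 * (3 ^ mm x * HH x ^ mm x) := by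
  let S : (ℕ × ℕ) × ℤ → Finset ℕ := fun i => if ⌊xi x i.1.1 i.1.2⌋ + i.2 = 0 then ∅ else
    (range (HH x)).filter (fun h => ((RR x + h : ℕ) : ℤ) ∣ ⌊xi x i.1.1 i.1.2⌋ + i.2)
  have hKW : 3 * Kb x ≤ WW x := by
    have := Kb_100 x
    rw [WW_Kb]; nlinarith
  have := union_bound ((range 3 ×ˢ range (Kb x)) ×ˢ Icc (-3 : ℤ) 3) S (HH x) (mm x) (fun i hi => by
      simp only [S]
      split_ifs with h
      · simp
      · rw [mem_product, mem_product, mem_range, mem_range, mem_Icc] at hi
        have h1 : |xi x i.1.1 i.1.2| ≤ 2 ^ WW x := by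
          rw [xi, abs_mul, abs_of_pos (by positivity)]
          have h2 := yy_abs (MZ x (i.1.1 / 2)) (if i.1.1 = 0 then 2 ^ x.length + 1 else idx x)
          have h3 : (2 : ℚ) ^ i.1.2 ≤ 2 ^ WW x := pow_le_pow_right₀ (by norm_num) (by omega)
          calc _ ≤ (2 : ℚ) ^ WW x * 1 := by gcongr; linarith
            _ = _ := mul_one _
        generalize xi x i.1.1 i.1.2 = ξ at *
        have h2 : |⌊ξ⌋ + i.2| ≤ 2 ^ 2 ^ ww x := by
          have h3 := Int.floor_le ξ
          have h4 := Int.lt_floor_add_one ξ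
          rw [abs_le] at h1
          have h5 : ⌊ξ⌋ ≤ 2 ^ WW x := by
            have : (⌊ξ⌋ : ℚ) ≤ 2 ^ WW x := by linarith
            exact_mod_cast this
          have h6 : -2 ^ WW x < ⌊ξ⌋ + 1 := by
            have : -(2 : ℚ) ^ WW x < ⌊ξ⌋ + 1 := by linarith
            exact_mod_cast this
          have hW : 0 < WW x := by rw [WW]; positivity
          have h7 : (2 : ℤ) ^ (WW x + 3) ≤ 2 ^ 2 ^ ww x := by
            refine pow_le_pow_right₀ (by norm_num) ?_
            have : 2 ^ ww x = 8 * WW x := by rw [ww, WW, pow_add]; ring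
            omega
          have h8 : (1 : ℤ) ≤ 2 ^ WW x := one_le_pow₀ (by norm_num)
          rw [pow_add] at h7
          rw [abs_le]; constructor <;> linarith [hi.2.1, hi.2.2]
        have h3 := few_divisors (ww x) _ h h2
        rw [← HH, ← RR] at h3
        omega)
    (fun r => ¬ Good3 x r) (fun r hr => by
      simp only [Good3] at hr
      push Not at hr
      obtain ⟨t, ht, s, hs, y, h1, h2, h3⟩ := hr
      have h4 := Int.floor_le (xi x t s)
      have h5 := Int.lt_floor_add_one (xi x t s)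
      rw [abs_le] at h1
      have h6 : -3 ≤ y - ⌊xi x t s⌋ := by
        have : (-3 : ℚ) ≤ y - ⌊xi x t s⌋ := by linarith
        exact_mod_cast this
      have h7 : y - ⌊xi x t s⌋ < 4 := by
        have : (y : ℚ) - ⌊xi x t s⌋ < 4 := by linarith
        exact_mod_cast this
      refine ⟨((t, s), y - ⌊xi x t s⌋), by simp [hs, ht]; omega, fun a ha => ?_⟩
      simp only [S, add_sub_cancel, if_neg h3, mem_filter, mem_range]
      refine ⟨digits_lt (HH_pos x) _ _ a ha, dvd_trans ?_ h2⟩
      rw [qq, dg]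
      exact Int.natCast_dvd_natCast.2 (List.dvd_prod (List.mem_map.2 ⟨a, ha, rfl⟩)))
  refine this.trans (Nat.mul_le_mul_right _ ?_)
  simp only [card_product, card_range, Int.card_Icc]
  exact Nat.mul_le_mul_right _ hKW

open Classical in
theorem card_good2 {C E : List Bool → ℕ}
    (hA : ∀ z, 0 < E z ∧ |(C z : ℚ) / E z - PhiZ z| ≤ 1 / ((2 ^ (bb (fstP z) + 11) : ℕ) : ℚ))
    (x : List Bool) : 2 * HH x ^ mm x ≤
      3 * ((range (HH x ^ mm x)).filter (fun r => dec2 C E x r = true ↔ x ∈ BitSLP)).card := by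
  have h1 := card_bad1 x
  have h2 := card_bad3 x
  have h3 : HH x ^ mm x ≤
      ((range (HH x ^ mm x)).filter (fun r => dec2 C E x r = true ↔ x ∈ BitSLP)).card +
      (((range (HH x ^ mm x)).filter (fun r => ¬ Good1 x r)).card +
      ((range (HH x ^ mm x)).filter (fun r => ¬ Good3 x r)).card) := by
    conv_lhs => rw [← card_range (HH x ^ mm x)]
    refine le_trans (card_le_card (fun r hr => ?_))
      ((card_union_le _ _).trans (Nat.add_le_add_left (card_union_le _ _) _))
    simp only [mem_union, mem_filter, hr, true_and]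
    by_cases g1 : Good1 x r
    · by_cases g2 : Good3 x r
      · exact Or.inl (dec2_correct hA x r g1 g2)
      · exact Or.inr (Or.inr g2)
    · exact Or.inr (Or.inl g1)
  have h4 : WW x * 32 * 3 ^ mm x ≤ 4 ^ mm x := by
    have e : mm x = 3 * (2 * tt x + 5) := by rw [mm]; ring
    have e2 : WW x * 32 = 2 ^ (2 * tt x + 5) := by rw [WW, pow_add]; norm_num
    rw [e2, e, pow_mul, pow_mul, ← mul_pow]
    exact Nat.pow_le_pow_left (by norm_num) _
  have h5 : 0 < WW x * 3 ^ mm x := by rw [WW]; positivity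
  generalize ((range (HH x ^ mm x)).filter (fun r => ¬ Good1 x r)).card = b1 at *
  generalize ((range (HH x ^ mm x)).filter (fun r => ¬ Good3 x r)).card = b2 at *
  generalize HH x ^ mm x = Z at *
  have h6 : WW x * 3 ^ mm x * (32 * (b1 + b2)) ≤ WW x * 3 ^ mm x * (8 * Z) := by
    calc WW x * 3 ^ mm x * (32 * (b1 + b2)) = WW x * 32 * 3 ^ mm x * (b1 + b2) := by ring
      _ ≤ 4 ^ mm x * (b1 + b2) := Nat.mul_le_mul_right _ h4
      _ ≤ _ := by nlinarith
  have h7 := Nat.le_of_mul_le_mul_left h6 h5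
  omega

theorem main : ∃ A, InPP A ∧ InBPPRel A BitSLP := by
  classical
  obtain ⟨A, hA, C, E, hC, hE, h⟩ := sq_PhiZ.oracle (D := fun z => 2 ^ (bb (fstP z) + 11))
    (PT.pow (PT.const 2) (by fun_prop) ((ps_bb (by fun_prop)).add (PB.const 11)))
    (fun _ => by positivity)
  refine ⟨A, hA, _, (2 * (Polynomial.X + 20) + 3) * (6 * (Polynomial.X + 20) + 15),
    (opt_dec2 hC hE).inPRel, fun x => ?_⟩
  have e : ((2 * (Polynomial.X + 20) + 3) * (6 * (Polynomial.X + 20) + 15) : Polynomial ℕ).eval
      x.length = ww x * mm x := by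
    simp [ww, mm, tt]
  rw [e, cnt_msb _ _ (fun r => dec2 C E x r = true ↔ x ∈ BitSLP) (fun w _ => by simp),
    pow_mul, ← HH]
  exact card_good2 h x

end Pool.Agent.P.MP_d7de43_lc.Bit
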